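import Pool.Agent.H303.AP.Dens

set_option autoImplicit false
set_option linter.unusedSectionVars false

open MeasureTheory Set Filter Topology
open scoped InnerProductSpace ContDiff

namespace Pool.Agent.H303.AP

open H772R2.NSR (Frame prim_cont grad_unique)
open Pool.Agent.W795.TQ
open Pool.Agent.X187.NSC (int_sub_le prim_half)

variable {H K : Type} [NormedAddCommGroup H] [InnerProductSpace ℝ H] [CompleteSpace H]
  [NormedAddCommGroup K] [InnerProductSpace ℝ K] [CompleteSpace K]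
  {W : Submodule ℝ (H × K)} {m : H → K} {C ν T L δ : ℝ} {J : K →L[ℝ] H} {P : K →L[ℝ] K}
  {B : K →L[ℝ] K →L[ℝ] K}

/-- A small perturbation changes the integral of the square a little. -/
theorem sq_pert {R0 η : ℝ} (hR0 : 0 ≤ R0) (hη : 0 < η) :
    ∃ κ : ℝ, 0 < κ ∧ ∀ (T : ℝ) (f g : ℝ → K) (e : ℝ → ℝ),
      AEStronglyMeasurable f (volume.restrict (Ioc 0 T)) →
      IntegrableOn (fun t => ‖g t‖ ^ 2) (Ioc 0 T) → IntegrableOn (fun t => e t ^ 2) (Ioc 0 T) →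
      (∀ᵐ t ∂(volume.restrict (Ioc 0 T)), ‖f t - g t‖ ≤ e t) →
      ∫ t in Ioc 0 T, ‖g t‖ ^ 2 ≤ R0 → ∫ t in Ioc 0 T, e t ^ 2 ≤ κ →
      IntegrableOn (fun t => ‖f t‖ ^ 2) (Ioc 0 T) ∧ ∫ t in Ioc 0 T, ‖f t‖ ^ 2 ≤ R0 + η := by
  set θ : ℝ := η / (2 * (R0 + 1)) with hθ
  have hθ0 : 0 < θ := by positivity
  refine ⟨η / 2 / (1 + θ⁻¹), by positivity, fun T f g e hf hg he hfe hgR heκ => ?_⟩
  have hpt : ∀ᵐ t ∂(volume.restrict (Ioc 0 T)),
      ‖f t‖ ^ 2 ≤ (1 + θ) * ‖g t‖ ^ 2 + (1 + θ⁻¹) * e t ^ 2 := by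
    filter_upwards [hfe] with t ht
    have h1 : ‖f t‖ ≤ ‖g t‖ + e t := by
      calc ‖f t‖ = ‖g t + (f t - g t)‖ := by congr 1; abel
        _ ≤ ‖g t‖ + ‖f t - g t‖ := norm_add_le _ _
        _ ≤ _ := by linarith
    have he0 : 0 ≤ e t := (norm_nonneg _).trans ht
    have h2 : ‖f t‖ ^ 2 ≤ (‖g t‖ + e t) ^ 2 := by gcongr
    have h3 : 2 * (‖g t‖ * e t) ≤ θ * ‖g t‖ ^ 2 + θ⁻¹ * e t ^ 2 := by
      have h4 : 0 ≤ θ⁻¹ * (θ * ‖g t‖ - e t) ^ 2 := by positivity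
      have h5 : θ⁻¹ * (θ * ‖g t‖ - e t) ^ 2
          = θ * ‖g t‖ ^ 2 - 2 * (‖g t‖ * e t) + θ⁻¹ * e t ^ 2 := by
        field_simp
        ring
      linarith
    nlinarith
  have hmaj : IntegrableOn (fun t => (1 + θ) * ‖g t‖ ^ 2 + (1 + θ⁻¹) * e t ^ 2) (Ioc 0 T) :=
    (hg.const_mul _).add (he.const_mul _)
  have hint : IntegrableOn (fun t => ‖f t‖ ^ 2) (Ioc 0 T) := by
    refine Integrable.mono' hmaj (hf.norm.pow 2) ?_
    filter_upwards [hpt] with t ht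
    rwa [Real.norm_of_nonneg (by positivity)]
  refine ⟨hint, (integral_mono_ae hint hmaj hpt).trans ?_⟩
  rw [integral_add (hg.const_mul _) (he.const_mul _), integral_const_mul, integral_const_mul]
  have h1 : (1 + θ) * ∫ t in Ioc 0 T, ‖g t‖ ^ 2 ≤ (1 + θ) * R0 := by gcongr
  have h2 : (1 + θ⁻¹) * ∫ t in Ioc 0 T, e t ^ 2 ≤ η / 2 := by
    calc (1 + θ⁻¹) * ∫ t in Ioc 0 T, e t ^ 2 ≤ (1 + θ⁻¹) * (η / 2 / (1 + θ⁻¹)) := by gcongr
      _ = η / 2 := by field_simp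
  have h3 : θ * R0 ≤ η / 2 := by
    rw [hθ, div_mul_eq_mul_div, div_le_div_iff₀ (by positivity) (by norm_num)]
    nlinarith
  linarith

theorem Op.norm_P (O : Op W m J P B) (k : K) : ‖P k‖ ≤ ‖k‖ := by
  have e1 : ⟪P k, P k⟫_ℝ = ⟪k, P k⟫_ℝ := by rw [O.P_symm k (P k), O.PP]
  have e2 : ‖P k‖ * ‖P k‖ ≤ ‖k‖ * ‖P k‖ := by
    rw [← real_inner_self_eq_norm_mul_norm, e1]
    exact real_inner_le_norm _ _
  rcases (norm_nonneg (P k)).eq_or_lt with h0 | h0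
  · rw [← h0]; exact norm_nonneg _
  · exact le_of_mul_le_mul_right e2 h0

theorem zero_path (T : ℝ) : Path J P T (fun _ => 0) (fun _ => 0) (fun _ => 0) (fun _ => 0) := by
  refine ⟨PR.const T 0, PR.const T 0, fun t _ => map_zero P, Eventually.of_forall fun _ => map_zero P,
    Eventually.of_forall fun _ => map_zero _, ⟨0, Eventually.of_forall fun _ => ?_⟩⟩
  simp

/-- First step: approximation by averages. -/
theorem approx1 (O : Op W m J P B) (ν : ℝ) (hT : 0 < T) (hT1 : T ≤ 1) {z z1 q q1 F F1 : ℝ → K}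
    (S : Path J P T z z1 q q1) (hz0 : z 0 = 0) (hq0 : q 0 = 0) (hF : PR T F F1)
    (hPF : ∀ t ∈ Icc 0 T, P (F t) = P (frc ν B z q t)) {R0 : ℝ}
    (hR0 : ∫ t in (0 : ℝ)..T, ‖F1 t‖ ^ 2 ≤ R0) {η : ℝ} (hη : 0 < η) :
    ∃ w w1 w2 : ℝ → K, PR 1 w w1 ∧ PR 1 w1 w2 ∧ w 0 = 0 ∧ w1 0 = 0 ∧
      (∀ᵐ t ∂(volume.restrict (Ioc 0 1)), P (w2 t) = w2 t) ∧
      IntegrableOn (fun t => ‖P (frc1 ν B w w1 (fun t => RJ J (w2 t)) t)‖ ^ 2) (Ioc 0 1) ∧
      ∫ t in Ioc 0 1, ‖P (frc1 ν B w w1 (fun t => RJ J (w2 t)) t)‖ ^ 2 ≤ R0 + η ∧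
      ‖z T‖ - η ≤ ‖w 1‖ := by
  have hR00 : 0 ≤ R0 := (intervalIntegral.integral_nonneg hT.le fun _ _ => by positivity).trans hR0
  obtain ⟨κ, hκ, hpert⟩ := sq_pert (K := K) hR00 hη
  set M : ℝ := ∫ t in (0 : ℝ)..T, ‖z1 t‖ ^ 2 with hM
  have hM0 : 0 ≤ M := intervalIntegral.integral_nonneg hT.le fun _ _ => by positivity
  set c0 : ℝ := ‖P‖ * (2 * ‖B‖) with hc0
  have hc00 : 0 ≤ c0 := by positivity
  -- the choice of `δ`
  set δ : ℝ := min (κ / ((c0 ^ 2 + 1) * (M ^ 2 + 1))) (η ^ 2 / (M + 1)) with hδdef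
  have hδ : 0 < δ := by positivity
  have hδ1 : c0 ^ 2 * (M * δ) * M ≤ κ := by
    have h1 : δ ≤ κ / ((c0 ^ 2 + 1) * (M ^ 2 + 1)) := min_le_left _ _
    rw [le_div_iff₀ (by positivity)] at h1
    nlinarith [sq_nonneg c0, sq_nonneg M, mul_nonneg (sq_nonneg c0) (sq_nonneg M), hδ.le,
      mul_nonneg hδ.le (sq_nonneg c0), mul_nonneg hδ.le (sq_nonneg M)]
  have hδ2 : √(M * δ) ≤ η := by
    have h1 : δ ≤ η ^ 2 / (M + 1) := min_le_right _ _
    rw [le_div_iff₀ (by positivity)] at h1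
    refine Real.sqrt_le_iff.2 ⟨hη.le, ?_⟩
    nlinarith
  set L : ℝ := 1 + δ with hL
  set a : ℝ := L - T with ha
  have ha0 : 0 < a := by rw [ha, hL]; linarith
  have hδa : δ ≤ a := by rw [ha, hL]; linarith
  have haT : a + T = L := by rw [ha]; ring
  have hLδ : L - δ = 1 := by rw [hL]; ring
  -- the extended path
  have hZ := (zero_path (J := J) (P := P) a).cat ha0.le hT.le S hz0.symm hq0.symm
  rw [haT] at hZ
  set Z : ℝ → K := cat a (fun _ => 0) z with hZdef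
  set Z1 : ℝ → K := cat a (fun _ => 0) z1 with hZ1def
  have hMZ : ∫ s in (0 : ℝ)..L, ‖Z1 s‖ ^ 2 ≤ M := by
    have h1 := sq_cat ha0.le hT.le (PR.const a (0 : K)).memLp S.pz.memLp
    rw [haT] at h1
    rw [h1]
    simp [hM]
  -- the extended force
  have hPF0 : P (F 0) = 0 := by
    rw [hPF 0 ⟨le_rfl, hT.le⟩, frc, hz0, hq0]
    simp
  have hG := (PR.const a (0 : K)).cat ha0.le hT.le (hF.map P) hPF0.symm
  rw [haT] at hG
  set G : ℝ → K := cat a (fun _ => 0) (fun t => P (F t)) with hGdef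
  have hGPF : ∀ t ∈ Icc 0 L, P (G t) = P (frc ν B Z (cat a (fun _ => 0) q) t) := by
    intro t ht
    rcases le_or_gt t a with h | h
    · simp only [hGdef, hZdef, frc, cat_le h]
      simp
    · have h2 : t - a ∈ Icc 0 T := ⟨by linarith, by linarith [ht.2]⟩
      rw [hGdef, cat_gt h, O.PP, hPF _ h2]
      simp only [hZdef, frc, cat_gt h]
  have hG1 : ∫ s in (0 : ℝ)..L, ‖cat a (fun _ => (0 : K)) (fun t => P (F1 t)) s‖ ^ 2 ≤ R0 := by
    have h1 := sq_cat ha0.le hT.le (PR.const a (0 : K)).memLp (hF.map P).memLp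
    rw [haT] at h1
    rw [h1]
    simp only [norm_zero, ne_eq, OfNat.ofNat_ne_zero, not_false_eq_true, zero_pow,
      intervalIntegral.integral_zero, zero_add]
    refine le_trans ?_ hR0
    refine intervalIntegral.integral_mono_on hT.le ((hF.map P).iisq le_rfl hT.le le_rfl)
      (hF.iisq le_rfl hT.le le_rfl) fun t _ => ?_
    have := O.norm_P (F1 t)
    gcongr
  obtain ⟨p1, p2, p3, p4⟩ := smooth_PR hδ hZ
  have p5 := smooth_frc (F := G) hδ hZ hGPF hMZ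
  rw [hLδ] at p1 p2 p3 p4 p5
  have hPG : PR L (fun t => P (G t)) (fun t => P (cat a (fun _ => (0 : K)) (fun t => P (F1 t)) t)) :=
    hG.map P
  have hdqG : ∫ t in (0 : ℝ)..1, ‖dq δ (fun s => P (G s)) t‖ ^ 2 ≤ R0 := by
    have h1 := dq_le hPG hδ (by linarith : δ ≤ L)
    rw [hLδ] at h1
    refine h1.trans (le_trans ?_ hG1)
    have hL0 : 0 ≤ L := by linarith
    refine intervalIntegral.integral_mono_on hL0 (hPG.iisq le_rfl hL0 le_rfl)
      (hG.iisq le_rfl hL0 le_rfl) fun t _ => ?_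
    have := O.norm_P (cat a (fun _ => (0 : K)) (fun t => P (F1 t)) t)
    gcongr
  have hdqZ : ∫ t in (0 : ℝ)..1, ‖dq δ Z t‖ ^ 2 ≤ M := by
    have h1 := dq_le hZ.pz hδ (by linarith : δ ≤ L)
    rw [hLδ] at h1
    exact h1.trans hMZ
  have hcZ : ContinuousOn (dq δ Z) (Icc 0 1) := p2.cont
  have hcG : ContinuousOn (dq δ (fun s => P (G s))) (Icc 0 1) := by
    have := (hPG.dq hδ.le).cont
    rwa [hLδ] at this
  have hfrcm : AEStronglyMeasurable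
      (fun t => P (frc1 ν B (stek δ Z) (dq δ Z) (fun t => RJ J (dq δ Z1 t)) t))
      (volume.restrict (Ioc 0 1)) := by
    have h1 : PR 1 (frc ν B (stek δ Z) (fun t => RJ J (dq δ Z t)))
        (frc1 ν B (stek δ Z) (dq δ Z) (fun t => RJ J (dq δ Z1 t))) :=
      ((p2.map (RJ J)).add (p1.smul ν)).sub (p1.bil B p1)
    exact (h1.map P).memLp.aestronglyMeasurable
  have key := hpert 1 _ (dq δ (fun s => P (G s)))
    (fun t => ‖P‖ * (2 * ‖B‖ * √(M * δ)) * ‖dq δ Z t‖) hfrcm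
    (((hcG.norm.pow 2).integrableOn_Icc).mono_set Ioc_subset_Icc_self)
    ((((continuousOn_const.mul hcZ.norm).pow 2).integrableOn_Icc).mono_set Ioc_subset_Icc_self) p5
    (by rw [← intervalIntegral.integral_of_le zero_le_one]; exact hdqG) (by
      have e1 : ∀ t, (‖P‖ * (2 * ‖B‖ * √(M * δ)) * ‖dq δ Z t‖) ^ 2
          = c0 ^ 2 * (M * δ) * ‖dq δ Z t‖ ^ 2 := by
        intro t
        have := Real.sq_sqrt (mul_nonneg hM0 hδ.le)
        calc (‖P‖ * (2 * ‖B‖ * √(M * δ)) * ‖dq δ Z t‖) ^ 2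
            = (‖P‖ * (2 * ‖B‖)) ^ 2 * (√(M * δ) ^ 2) * ‖dq δ Z t‖ ^ 2 := by ring
          _ = _ := by rw [this]
      simp only [e1]
      rw [integral_const_mul, ← intervalIntegral.integral_of_le zero_le_one]
      refine le_trans ?_ hδ1
      gcongr)
  refine ⟨stek δ Z, dq δ Z, dq δ Z1, p1, p2, ?_, ?_, p4, key.1, key.2, ?_⟩
  · rw [stek_eq hZ.pz hδ ⟨le_rfl, by rw [hLδ]; exact zero_le_one⟩]
    have e1 : ∫ s in (0 : ℝ)..(δ + 0), Z s = ∫ s in (0 : ℝ)..(δ + 0), (0 : K) := by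
      refine intervalIntegral.integral_congr fun s hs => ?_
      rw [uIcc_of_le (by linarith)] at hs
      rw [hZdef]
      exact cat_le (by linarith [hs.2]) _ _
    rw [e1]
    simp
  · simp only [dq, hZdef]
    rw [cat_le (by linarith), cat_le ha0.le]
    simp
  · have e1 : (1 : ℝ) ∈ Icc 0 (L - δ) := by rw [hLδ]; exact ⟨zero_le_one, le_rfl⟩
    have e2 := stek_close hZ.pz hδ hMZ e1 (r := L) ⟨by linarith, by rw [hL]; linarith⟩
    have e3 : Z L = z T := by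
      rw [hZdef, cat_gt (by linarith)]
      congr 1
      rw [ha]; ring
    rw [e3] at e2
    have e4 : ‖z T‖ ≤ ‖stek δ Z 1‖ + ‖stek δ Z 1 - z T‖ := by
      calc ‖z T‖ = ‖stek δ Z 1 - (stek δ Z 1 - z T)‖ := by congr 1; abel
        _ ≤ _ := norm_sub_le _ _
    linarith

end Pool.Agent.H303.AP
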