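import Pool.Agent.H303.AP.Approx

set_option autoImplicit false
set_option linter.unusedSectionVars false

open MeasureTheory Set Filter Topology
open scoped InnerProductSpace ContDiff

namespace Pool.Agent.H303.AP

open H772R2.NSR (Frame prim_cont grad_unique)
open Pool.Agent.W795.TQ
open Pool.Agent.X187.NSC (int_sub_le prim_half)

variable {H K : Type} [NormedAddCommGroup H] [InnerProductSpace ℝ H] [CompleteSpace H]
  [NormedAddCommGroup K] [InnerProductSpace ℝ K] [CompleteSpace K]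
  {W : Submodule ℝ (H × K)} {m : H → K} {C ν T L δ : ℝ} {J : K →L[ℝ] H} {P : K →L[ℝ] K}
  {B : K →L[ℝ] K →L[ℝ] K}

/-- the primitive which vanishes at `0` -/
noncomputable def prm (y : ℝ → K) : ℝ → K := fun t => ∫ s in (0 : ℝ)..t, y s

theorem prm_PR {y : ℝ → K} (hy : Continuous y) (T : ℝ) : PR T (prm y) y :=
  PR.integral hy.continuousOn

theorem prm_cont {y : ℝ → K} (hy : Continuous y) : Continuous (prm y) :=
  intervalIntegral.continuous_primitive (fun _ _ => hy.intervalIntegrable _ _) 0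

theorem prm_zero (y : ℝ → K) : prm y 0 = 0 := by simp [prm]

/-- a primitive is small if the derivative is small in `L²` -/
theorem prim_small {f f1 : ℝ → K} (h : PR 1 f f1) (h0 : f 0 = 0) {ε : ℝ} (hε : 0 ≤ ε)
    (h1 : ∫ t in Ioc 0 1, ‖f1 t‖ ^ 2 ≤ ε ^ 2) : ∀ t ∈ Icc (0 : ℝ) 1, ‖f t‖ ≤ ε := by
  intro t ht
  have h2 : ∫ s in (0 : ℝ)..t, ‖f1 s‖ ^ 2 ≤ ε ^ 2 := by
    refine int_sub_le h.sq (fun t => by positivity) ?_ le_rfl ht.1 ht.2
    rw [intervalIntegral.integral_of_le zero_le_one]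
    exact h1
  have h3 := prim_half h.memLp h.prim le_rfl ht.1 ht.2 h2
  rw [h0, sub_zero, sub_zero] at h3
  have h4 : ‖f t‖ ^ 2 ≤ ε ^ 2 := h3.trans (by nlinarith [ht.2, sq_nonneg ε])
  exact (pow_le_pow_iff_left₀ (norm_nonneg _) hε (by norm_num)).mp h4

/-- Second step: approximation by finite sums. -/
theorem approx2 (O : Op W m J P B) (ν : ℝ) {D : Submodule ℝ K} (hPD : ∀ p ∈ D, P p = p)
    (hD : ∀ k, P k ∈ closure (D : Set K)) {w w1 w2 : ℝ → K} (p1 : PR 1 w w1) (p2 : PR 1 w1 w2)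
    (hw0 : w 0 = 0) (hw10 : w1 0 = 0)
    (hPw : ∀ᵐ t ∂(volume.restrict (Ioc 0 1)), P (w2 t) = w2 t)
    (hint : IntegrableOn (fun t => ‖P (frc1 ν B w w1 (fun t => RJ J (w2 t)) t)‖ ^ 2) (Ioc 0 1))
    {R0 : ℝ} (hR0 : ∫ t in Ioc 0 1, ‖P (frc1 ν B w w1 (fun t => RJ J (w2 t)) t)‖ ^ 2 ≤ R0)
    {η : ℝ} (hη : 0 < η) :
    ∃ y, FS D 1 y ∧ Continuous y ∧
      ∫ t in Ioc 0 1, ‖P (frc1 ν B (prm (prm y)) (prm y) (fun t => RJ J (y t)) t)‖ ^ 2 ≤ R0 + η ∧
      ‖w 1‖ - η ≤ ‖prm (prm y) 1‖ := by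
  have hR00 : 0 ≤ R0 := (integral_nonneg fun _ => by positivity).trans hR0
  obtain ⟨κ, hκ, hpert⟩ := sq_pert (K := K) hR00 hη
  obtain ⟨M0, hM0⟩ := (isCompact_Icc (a := (0 : ℝ)) (b := 1)).exists_bound_of_continuousOn p1.cont
  obtain ⟨M1, hM1⟩ := (isCompact_Icc (a := (0 : ℝ)) (b := 1)).exists_bound_of_continuousOn p2.cont
  have hM00 : 0 ≤ M0 := (norm_nonneg _).trans (hM0 0 ⟨le_rfl, zero_le_one⟩)
  have hM10 : 0 ≤ M1 := (norm_nonneg _).trans (hM1 0 ⟨le_rfl, zero_le_one⟩)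
  set c1 : ℝ := ‖RJ J‖ with hc1
  have hc10 : 0 ≤ c1 := by positivity
  set c2 : ℝ := |ν| + 2 * ‖B‖ * (M0 + M1 + 1) with hc2
  have hc20 : 0 ≤ c2 := by positivity
  set ε : ℝ := min (min 1 η) (√(κ / (2 * (c1 ^ 2 + c2 ^ 2 + 1)))) with hε
  have hε0 : 0 < ε := by positivity
  have hε1 : ε ≤ 1 := (min_le_left _ _).trans (min_le_left _ _)
  have hεη : ε ≤ η := (min_le_left _ _).trans (min_le_right _ _)
  have hεκ : ε ^ 2 * (2 * (c1 ^ 2 + c2 ^ 2 + 1)) ≤ κ := by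
    have h1 : ε ^ 2 ≤ (√(κ / (2 * (c1 ^ 2 + c2 ^ 2 + 1)))) ^ 2 := by
      have : ε ≤ √(κ / (2 * (c1 ^ 2 + c2 ^ 2 + 1))) := min_le_right _ _
      gcongr
    rw [Real.sq_sqrt (by positivity)] at h1
    rwa [le_div_iff₀ (by positivity)] at h1
  obtain ⟨y, hy, hyε⟩ := dens O.P_symm hPD hD p2.memLp hPw hε0
  have hyc : Continuous y := by
    obtain ⟨ι, _, a, p, h1, -, rfl⟩ := hy
    exact continuous_finsetSum _ fun i _ => (h1 i).1.continuous.smul continuous_const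
  have q2 := prm_PR hyc 1
  have hyc1 := prm_cont hyc
  have q1 := prm_PR hyc1 1
  -- the differences are small
  have d1 : ∀ t ∈ Icc (0 : ℝ) 1, ‖w1 t - prm y t‖ ≤ ε :=
    prim_small (p2.sub q2) (by rw [hw10, prm_zero, sub_zero]) hε0.le hyε
  have hc12 : ContinuousOn (fun t => w1 t - prm y t) (Icc 0 1) := (p2.sub q2).cont
  have d1' : ∫ t in Ioc 0 1, ‖w1 t - prm y t‖ ^ 2 ≤ ε ^ 2 := by
    have h1 : ∫ t in Ioc (0 : ℝ) 1, ‖w1 t - prm y t‖ ^ 2 ≤ ∫ t in Ioc (0 : ℝ) 1, ε ^ 2 := by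
      refine setIntegral_mono_on ?_ (integrableOn_const (by simp)) measurableSet_Ioc fun t ht => ?_
      · exact ((hc12.norm.pow 2).integrableOn_Icc).mono_set Ioc_subset_Icc_self
      · have := d1 t (Ioc_subset_Icc_self ht)
        gcongr
    simpa using h1
  have d0 : ∀ t ∈ Icc (0 : ℝ) 1, ‖w t - prm (prm y) t‖ ≤ ε :=
    prim_small (p1.sub q1) (by rw [hw0, prm_zero, sub_zero]) hε0.le d1'
  have hpr : PR 1 (frc ν B (prm (prm y)) (fun t => RJ J (prm y t)))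
      (frc1 ν B (prm (prm y)) (prm y) (fun t => RJ J (y t))) :=
    ((q2.map (RJ J)).add (q1.smul ν)).sub (q1.bil B q1)
  have hsqd : IntegrableOn (fun t => ‖w2 t - y t‖ ^ 2) (Ioc 0 1) := (p2.sub q2).sq
  have hnd : MemLp (fun t => w2 t - y t) 2 (volume.restrict (Ioc 0 1)) := (p2.sub q2).memLp
  have hfin := fin_T 1
  have hemem : MemLp (fun t => c1 * ‖w2 t - y t‖ + c2 * ε) 2 (volume.restrict (Ioc 0 1)) :=
    (hnd.norm.const_mul c1).add (memLp_const _)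
  have key := hpert 1 (fun t => P (frc1 ν B (prm (prm y)) (prm y) (fun t => RJ J (y t)) t))
    (fun t => P (frc1 ν B w w1 (fun t => RJ J (w2 t)) t))
    (fun t => c1 * ‖w2 t - y t‖ + c2 * ε) (hpr.map P).memLp.aestronglyMeasurable hint
    hemem.integrable_sq
    (by
      filter_upwards [ae_restrict_mem measurableSet_Ioc] with t ht
      have htI : t ∈ Icc (0 : ℝ) 1 := Ioc_subset_Icc_self ht
      have n1 := d1 t htI
      have n0 := d0 t htI
      have b0 := hM0 t htI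
      have b1 := hM1 t htI
      rw [norm_sub_rev, ← map_sub]
      refine (O.norm_P _).trans ?_
      have e1 : frc1 ν B w w1 (fun t => RJ J (w2 t)) t
          - frc1 ν B (prm (prm y)) (prm y) (fun t => RJ J (y t)) t
          = RJ J (w2 t - y t) + ν • (w1 t - prm y t)
            - ((B (w1 t - prm y t) (w t) + B (prm y t) (w t - prm (prm y) t))
              + (B (w t - prm (prm y) t) (w1 t) + B (prm (prm y) t) (w1 t - prm y t))) := by
        simp only [frc1, map_sub, sub_apply, smul_sub]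
        abel
      rw [e1]
      have k1 : ‖prm y t‖ ≤ M1 + 1 := by
        calc ‖prm y t‖ = ‖w1 t - (w1 t - prm y t)‖ := by congr 1; abel
          _ ≤ ‖w1 t‖ + ‖w1 t - prm y t‖ := norm_sub_le _ _
          _ ≤ M1 + 1 := by linarith
      have k0 : ‖prm (prm y) t‖ ≤ M0 + 1 := by
        calc ‖prm (prm y) t‖ = ‖w t - (w t - prm (prm y) t)‖ := by congr 1; abel
          _ ≤ ‖w t‖ + ‖w t - prm (prm y) t‖ := norm_sub_le _ _
          _ ≤ M0 + 1 := by linarith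
      have t1 : ‖RJ J (w2 t - y t)‖ ≤ c1 * ‖w2 t - y t‖ := (RJ J).le_opNorm _
      have t2 : ‖ν • (w1 t - prm y t)‖ ≤ |ν| * ε := by
        rw [norm_smul, Real.norm_eq_abs]; gcongr
      have t3 : ‖B (w1 t - prm y t) (w t)‖ ≤ ‖B‖ * ε * M0 :=
        (B.le_opNorm₂ _ _).trans (by gcongr)
      have t4 : ‖B (prm y t) (w t - prm (prm y) t)‖ ≤ ‖B‖ * (M1 + 1) * ε :=
        (B.le_opNorm₂ _ _).trans (by gcongr)
      have t5 : ‖B (w t - prm (prm y) t) (w1 t)‖ ≤ ‖B‖ * ε * M1 :=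
        (B.le_opNorm₂ _ _).trans (by gcongr)
      have t6 : ‖B (prm (prm y) t) (w1 t - prm y t)‖ ≤ ‖B‖ * (M0 + 1) * ε :=
        (B.le_opNorm₂ _ _).trans (by gcongr)
      calc _ ≤ (‖RJ J (w2 t - y t)‖ + ‖ν • (w1 t - prm y t)‖)
            + ((‖B (w1 t - prm y t) (w t)‖ + ‖B (prm y t) (w t - prm (prm y) t)‖)
              + (‖B (w t - prm (prm y) t) (w1 t)‖ + ‖B (prm (prm y) t) (w1 t - prm y t)‖)) := by
            refine (norm_sub_le _ _).trans (add_le_add (norm_add_le _ _) ?_)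
            exact (norm_add_le _ _).trans (add_le_add (norm_add_le _ _) (norm_add_le _ _))
        _ ≤ (c1 * ‖w2 t - y t‖ + |ν| * ε) + ((‖B‖ * ε * M0 + ‖B‖ * (M1 + 1) * ε)
              + (‖B‖ * ε * M1 + ‖B‖ * (M0 + 1) * ε)) := by gcongr
        _ = c1 * ‖w2 t - y t‖ + c2 * ε := by rw [hc2]; ring)
    hR0 (by
      have h1 : ∀ t, (c1 * ‖w2 t - y t‖ + c2 * ε) ^ 2
          ≤ 2 * c1 ^ 2 * ‖w2 t - y t‖ ^ 2 + 2 * (c2 * ε) ^ 2 := fun t => by
        nlinarith [sq_nonneg (c1 * ‖w2 t - y t‖ - c2 * ε)]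
      have h2 : ∫ t in Ioc (0 : ℝ) 1, (c1 * ‖w2 t - y t‖ + c2 * ε) ^ 2
          ≤ ∫ t in Ioc (0 : ℝ) 1, (2 * c1 ^ 2 * ‖w2 t - y t‖ ^ 2 + 2 * (c2 * ε) ^ 2) :=
        integral_mono hemem.integrable_sq
          ((hsqd.const_mul _).add (integrableOn_const (by simp))) h1
      refine h2.trans ?_
      rw [integral_add (hsqd.const_mul _) (integrableOn_const (by simp)), integral_const_mul]
      simp only [integral_const, measureReal_restrict_apply_univ, Real.volume_real_Ioc,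
        sub_zero, smul_eq_mul]
      have h3 : 2 * c1 ^ 2 * ∫ t in Ioc (0 : ℝ) 1, ‖w2 t - y t‖ ^ 2 ≤ 2 * c1 ^ 2 * ε ^ 2 := by
        gcongr
      have h4 : max (1 : ℝ) 0 = 1 := by norm_num
      rw [h4]
      nlinarith [sq_nonneg ε])
  refine ⟨y, hy, hyc, key.2, ?_⟩
  have e4 : ‖w 1‖ ≤ ‖prm (prm y) 1‖ + ‖w 1 - prm (prm y) 1‖ := by
    calc ‖w 1‖ = ‖prm (prm y) 1 + (w 1 - prm (prm y) 1)‖ := by congr 1; abel
      _ ≤ _ := norm_add_le _ _
  have := d0 1 ⟨zero_le_one, le_rfl⟩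
  linarith

end Pool.Agent.H303.AP
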