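import Pool.Agent.H303.AP.Smooth

set_option autoImplicit false
set_option linter.unusedSectionVars false

open MeasureTheory Set Filter Topology
open scoped InnerProductSpace ContDiff

namespace Pool.Agent.H303.AP

variable {K : Type} [NormedAddCommGroup K] [InnerProductSpace ℝ K] [CompleteSpace K]
  {T : ℝ} {P : K →L[ℝ] K}

/-- Test functions of time. -/
def IsT (T : ℝ) (a : ℝ → ℝ) : Prop :=
  ContDiff ℝ ∞ a ∧ HasCompactSupport a ∧ tsupport a ⊆ Ioo 0 T

/-- Finite sums of products. -/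
def FS (D : Submodule ℝ K) (T : ℝ) (y : ℝ → K) : Prop :=
  ∃ (ι : Type) (_ : Fintype ι) (a : ι → ℝ → ℝ) (p : ι → K), (∀ i, IsT T (a i)) ∧ (∀ i, p i ∈ D) ∧
    y = fun t => ∑ i, a i t • p i

theorem FS.add {D : Submodule ℝ K} {y y' : ℝ → K} (h : FS D T y) (h' : FS D T y') :
    FS D T (fun t => y t + y' t) := by
  obtain ⟨ι, _, a, p, h1, h2, rfl⟩ := h
  obtain ⟨ι', _, a', p', h1', h2', rfl⟩ := h'
  refine ⟨ι ⊕ ι', inferInstance, Sum.elim a a', Sum.elim p p', ?_, ?_, ?_⟩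
  · rintro (i | i)
    · exact h1 i
    · exact h1' i
  · rintro (i | i)
    · exact h2 i
    · exact h2' i
  · funext t
    rw [Fintype.sum_sum_type]
    rfl

theorem FS.smul {D : Submodule ℝ K} {y : ℝ → K} (h : FS D T y) (c : ℝ) :
    FS D T (fun t => c • y t) := by
  obtain ⟨ι, _, a, p, h1, h2, rfl⟩ := h
  refine ⟨ι, inferInstance, a, fun i => c • p i, h1, fun i => D.smul_mem c (h2 i), ?_⟩
  funext t
  rw [Finset.smul_sum]
  exact Finset.sum_congr rfl fun i _ => smul_comm _ _ _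

theorem memLp_prod {a : ℝ → ℝ} (ha : IsT T a) (p : K) :
    MemLp (fun t => a t • p) 2 (volume.restrict (Ioc 0 T)) := by
  have h1 : Continuous fun t => a t • p := ha.1.continuous.smul continuous_const
  have h2 : HasCompactSupport fun t => a t • p := ha.2.1.smul_right
  exact (h1.memLp_of_hasCompactSupport h2).restrict _

/-- Density of the finite sums. -/
theorem dens {D : Submodule ℝ K} (hPs : ∀ k l, ⟪P k, l⟫_ℝ = ⟪k, P l⟫_ℝ)
    (hPD : ∀ p ∈ D, P p = p) (hD : ∀ k, P k ∈ closure (D : Set K)) {g : ℝ → K}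
    (hg : MemLp g 2 (volume.restrict (Ioc 0 T))) (hPg : ∀ᵐ t ∂(volume.restrict (Ioc 0 T)), P (g t) = g t)
    {ε : ℝ} (hε : 0 < ε) : ∃ y, FS D T y ∧ ∫ t in Ioc 0 T, ‖g t - y t‖ ^ 2 ≤ ε ^ 2 := by
  set μ : Measure ℝ := volume.restrict (Ioc 0 T) with hμ
  have hfin : IsFiniteMeasure μ := fin_T T
  let G : Set (Lp K 2 μ) := {f | ∃ (a : ℝ → ℝ) (p : K), IsT T a ∧ p ∈ D ∧ f =ᵐ[μ] fun t => a t • p}
  let V : Submodule ℝ (Lp K 2 μ) := (Submodule.span ℝ G).topologicalClosure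
  have hVcl : IsClosed (V : Set (Lp K 2 μ)) := Submodule.isClosed_topologicalClosure _
  have : CompleteSpace V := hVcl.completeSpace_coe
  -- elements of the span
  have hspan : ∀ f ∈ Submodule.span ℝ G, ∃ y, FS D T y ∧ f =ᵐ[μ] y := by
    intro f hf
    induction hf using Submodule.span_induction with
    | mem f hf =>
      obtain ⟨a, p, h1, h2, h3⟩ := hf
      refine ⟨fun t => a t • p, ⟨Unit, inferInstance, fun _ => a, fun _ => p, fun _ => h1,
        fun _ => h2, ?_⟩, h3⟩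
      funext t
      simp
    | zero =>
      refine ⟨fun _ => 0, ⟨Empty, inferInstance, fun i => i.elim, fun i => i.elim,
        fun i => i.elim, fun i => i.elim, ?_⟩, Lp.coeFn_zero _ _ _⟩
      funext t
      simp
    | add f f' _ _ h h' =>
      obtain ⟨y, h1, h2⟩ := h
      obtain ⟨y', h1', h2'⟩ := h'
      refine ⟨_, h1.add h1', ?_⟩
      filter_upwards [Lp.coeFn_add f f', h2, h2'] with t e1 e2 e3
      rw [e1, Pi.add_apply, e2, e3]
    | smul c f _ h =>
      obtain ⟨y, h1, h2⟩ := h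
      refine ⟨_, h1.smul c, ?_⟩
      filter_upwards [Lp.coeFn_smul c f, h2] with t e1 e2
      rw [e1, Pi.smul_apply, e2]
  -- the projection
  let PL : Lp K 2 μ →L[ℝ] Lp K 2 μ := P.compLpL 2 μ
  have hPL : ∀ f : Lp K 2 μ, PL f =ᵐ[μ] fun t => P (f t) := fun f => P.coeFn_compLpL f
  let E : Submodule ℝ (Lp K 2 μ) := LinearMap.eqLocus (PL : Lp K 2 μ →ₗ[ℝ] Lp K 2 μ) LinearMap.id
  have hEcl : IsClosed (E : Set (Lp K 2 μ)) := isClosed_eq PL.continuous continuous_id
  have hGE : G ⊆ E := by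
    rintro f ⟨a, p, h1, h2, h3⟩
    show PL f = f
    apply Lp.ext
    filter_upwards [hPL f, h3] with t e1 e2
    rw [e1, e2, map_smul, hPD p h2]
  have hVE : V ≤ E := Submodule.topologicalClosure_minimal _ (Submodule.span_le.2 hGE) hEcl
  set gL : Lp K 2 μ := hg.toLp g with hgL
  have hgc : gL =ᵐ[μ] g := MemLp.coeFn_toLp _
  have hgE : gL ∈ E := by
    show PL gL = gL
    apply Lp.ext
    filter_upwards [hPL gL, hgc, hPg] with t e1 e2 e3
    rw [e1, e2, e3]
  -- the orthogonal part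
  set h : Lp K 2 μ := gL - V.starProjection gL with hh
  have hhE : h ∈ E := E.sub_mem hgE (hVE (Submodule.starProjection_apply_mem _ _))
  have hhV : ∀ f ∈ V, ⟪f, h⟫_ℝ = 0 := by
    intro f hf
    have := Submodule.sub_starProjection_mem_orthogonal (K := V) gL
    exact (Submodule.mem_orthogonal V _).1 this f hf
  have hhP : ∀ᵐ t ∂μ, P (h t) = h t := by
    have e0 : PL h = h := hhE
    filter_upwards [hPL h] with t e1
    rw [← e1, e0]
  have hhi : Integrable (h : ℝ → K) μ := (Lp.memLp h).integrable (by norm_num)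
  have hD0 : ∀ p ∈ D, ∀ᵐ t ∂μ, ⟪p, h t⟫_ℝ = 0 := by
    intro p hp
    have hloc : LocallyIntegrableOn (fun t => ⟪p, h t⟫_ℝ) (Ioo 0 T) volume := by
      have h1 : IntegrableOn (fun t => ⟪p, h t⟫_ℝ) (Ioc 0 T) volume := hhi.const_inner p
      exact (h1.mono_set Ioo_subset_Ioc_self).locallyIntegrableOn
    have h0 := IsOpen.ae_eq_zero_of_integral_contDiff_smul_eq_zero (isOpen_Ioo) hloc (by
      intro a h1 h2 h3
      have h4 : (hm : IsT T a) → ((memLp_prod hm p).toLp _ : Lp K 2 μ) ∈ V := fun hm =>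
        Submodule.le_topologicalClosure _ (Submodule.subset_span ⟨a, p, hm, hp,
          MemLp.coeFn_toLp _⟩)
      have h5 := hhV _ (h4 ⟨h1, h2, h3⟩)
      rw [L2.inner_def] at h5
      have h6 : ∫ t, ⟪((memLp_prod ⟨h1, h2, h3⟩ p).toLp _ : Lp K 2 μ) t, h t⟫_ℝ ∂μ
          = ∫ t in Ioc 0 T, a t • ⟪p, h t⟫_ℝ := by
        refine integral_congr_ae ?_
        filter_upwards [MemLp.coeFn_toLp (memLp_prod (K := K) (T := T) ⟨h1, h2, h3⟩ p)] with t e1
        rw [e1, real_inner_smul_left, smul_eq_mul]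
      rw [h6] at h5
      rw [← h5]
      symm
      refine setIntegral_eq_integral_of_forall_compl_eq_zero fun t ht => ?_
      have : a t = 0 := by
        by_contra hne
        exact ht (Ioo_subset_Ioc_self (h3 (subset_tsupport a hne)))
      rw [this, zero_smul])
    have h7 : ∀ᵐ t ∂(volume.restrict (Ioo 0 T)), ⟪p, h t⟫_ℝ = 0 :=
      (ae_restrict_iff' measurableSet_Ioo).2 h0
    rw [restrict_Ioo_eq_restrict_Ioc] at h7
    exact h7
  have hK0 : ∀ k : K, ∀ᵐ t ∂μ, ⟪k, h t⟫_ℝ = 0 := by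
    intro k
    obtain ⟨s, hs1, hs2⟩ := mem_closure_iff_seq_limit.1 (hD k)
    have h1 : ∀ᵐ t ∂μ, ∀ n, ⟪s n, h t⟫_ℝ = 0 := ae_all_iff.2 fun n => hD0 _ (hs1 n)
    filter_upwards [h1, hhP] with t e1 e2
    have e3 : Tendsto (fun n => ⟪s n, h t⟫_ℝ) atTop (𝓝 ⟪P k, h t⟫_ℝ) :=
      hs2.inner tendsto_const_nhds
    have e4 : ⟪P k, h t⟫_ℝ = 0 :=
      tendsto_nhds_unique e3 (by simp only [e1]; exact tendsto_const_nhds)
    rw [← e2, ← hPs, e4]
  have hh0 : h = 0 := by
    apply Lp.ext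
    have h1 : (h : ℝ → K) =ᵐ[μ] 0 := by
      refine Integrable.ae_eq_zero_of_forall_setIntegral_eq_zero hhi fun s hs _ => ?_
      refine ext_inner_left ℝ fun k => ?_
      rw [inner_zero_right, ← integral_inner hhi.integrableOn]
      rw [integral_eq_zero_of_ae]
      exact ae_restrict_of_ae (hK0 k)
    filter_upwards [h1, Lp.coeFn_zero K 2 μ] with t e1 e2
    rw [e1, e2]
  have hgV : gL ∈ V := by
    have : gL = V.starProjection gL := sub_eq_zero.1 hh0
    rw [this]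
    exact Submodule.starProjection_apply_mem _ _
  have hgV' : gL ∈ closure ((Submodule.span ℝ G : Submodule ℝ (Lp K 2 μ)) : Set (Lp K 2 μ)) := hgV
  obtain ⟨f, hf1, hf2⟩ := Metric.mem_closure_iff.1 hgV' ε hε
  obtain ⟨y, hy1, hy2⟩ := hspan f hf1
  refine ⟨y, hy1, ?_⟩
  rw [dist_eq_norm] at hf2
  have h1 : ‖gL - f‖ ^ 2 = ∫ t, ‖g t - y t‖ ^ 2 ∂μ := by
    rw [← real_inner_self_eq_norm_sq, L2.inner_def]
    refine integral_congr_ae ?_
    filter_upwards [Lp.coeFn_sub gL f, hgc, hy2] with t e1 e2 e3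
    rw [e1, Pi.sub_apply, e2, e3, real_inner_self_eq_norm_sq]
  rw [← h1]
  gcongr

end Pool.Agent.H303.AP
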