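import Pool.Graph.R_pool_sql_team_seeded_64922ed1.X187.NSC.PubData

/-!
Public definitions: finite sums of smooth functions of time and divergence free test fields.
-/

set_option autoImplicit false

open MeasureTheory Set Filter Topology
open scoped InnerProductSpace ENNReal ContDiff

namespace Pool.Agent.H303.APP

open H772R2.NS.Pub Pool.Agent.X187.NSD

/-- The field `u(t) = ∑ aᵢ(t) φᵢ`. -/
noncomputable def field {n : ℕ} (a : Fin n → ℝ → ℝ) (φ : Fin n → R3 → R3) (t : ℝ) : R3 → R3 :=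
  fun x => ∑ i, a i t • φ i x

/-- `φ₁, …, φₙ` are divergence free test fields in `Ω` and `a₁, …, aₙ` are smooth functions on `ℝ`
which vanish in a neighbourhood of `(-∞,0]`. -/
structure Starts (Ω : Set R3) {n : ℕ} (a : Fin n → ℝ → ℝ) (φ : Fin n → R3 → R3) : Prop where
  test : ∀ i, IsTest Ω (φ i)
  smooth : ∀ i, ContDiff ℝ ∞ (a i)
  supp : ∀ i, tsupport (a i) ⊆ Ioi 0

/-- For the field `u(t) = ∑ aᵢ(t) φᵢ` and `0 ≤ t ≤ 1` the equation
`(∂ₜu, ψ) - (u, (u·∇)ψ) + (∇u, ∇ψ) = (F(t), ∇ψ)` holds for all divergence free test fields `ψ`,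
that is, `∂ₜu - Δu + (u·∇)u = -div F` up to a gradient. -/
def Residual (Ω : Set R3) {n : ℕ} (a : Fin n → ℝ → ℝ) (φ : Fin n → R3 → R3)
    (F : ℝ → L2 Ω Mat) : Prop :=
  ∀ t ∈ Icc (0 : ℝ) 1, ∀ ψ, IsTest Ω ψ →
    (∫ x in Ω, ⟪field (fun i => deriv (a i)) φ t x, ψ x⟫_ℝ)
      - (∫ x in Ω, ⟪field a φ t x, fderiv ℝ ψ x (field a φ t x)⟫_ℝ)
      + (∫ x in Ω, ⟪jac (field a φ t) x, jac ψ x⟫_ℝ) = ∫ x in Ω, ⟪(F t).fn x, jac ψ x⟫_ℝ

end Pool.Agent.H303.APP
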