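import Pool.Agent.H303.AP.QuadTens
import Pool.Agent.H303.AP.PubDef

set_option autoImplicit false
set_option linter.unusedSectionVars false

open MeasureTheory Set Filter Topology
open scoped InnerProductSpace ContDiff

namespace Pool.Agent.H303.AP

open H772R2 H772R2.NS H772R2.NS.Pub H772R2.NSR
open Pool.Agent.W795.TQ Pool.Agent.X187.NSD Pool.Agent.X187.NSC Pool.Agent.H303.APP

theorem sum_pair {Ω : Set E3} {ι : Type} (s : Finset ι) (b : ι → ℝ) (φ : ι → E3 → E3)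
    (p : ι → L2V Ω × L2M Ω) (h : ∀ i, NS.IsTest Ω (φ i))
    (h1 : ∀ i, (p i).1 =ᵐ[volume.restrict Ω] φ i)
    (h2 : ∀ i, (p i).2 =ᵐ[volume.restrict Ω] NS.jac (φ i)) :
    NS.IsTest Ω (∑ i ∈ s, b i • φ i) ∧
      ((∑ i ∈ s, b i • (p i).1 : L2V Ω) : E3 → E3) =ᵐ[volume.restrict Ω] (∑ i ∈ s, b i • φ i) ∧
      ((∑ i ∈ s, b i • (p i).2 : L2M Ω) : E3 → M3) =ᵐ[volume.restrict Ω]
        NS.jac (∑ i ∈ s, b i • φ i) := by
  classical
  induction s using Finset.induction_on with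
  | empty =>
    refine ⟨by simpa using IsTest.zero, ?_, ?_⟩
    · simp only [Finset.sum_empty]
      exact Lp.coeFn_zero _ _ _
    · simp only [Finset.sum_empty]
      refine (Lp.coeFn_zero _ _ _).trans ?_
      exact Eventually.of_forall (fun x => by simp [jac_zero])
  | insert j s hj ih =>
    obtain ⟨k1, k2, k3⟩ := ih
    simp only [Finset.sum_insert hj]
    refine ⟨((h j).smul _).add k1, ?_, ?_⟩
    · refine (Lp.coeFn_add _ _).trans ?_
      filter_upwards [k2, Lp.coeFn_smul (b j) (p j).1, h1 j] with x e1 e2 e3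
      simp only [Pi.add_apply]
      rw [e1, e2, Pi.smul_apply, e3, Pi.smul_apply]
    · refine (Lp.coeFn_add _ _).trans ?_
      filter_upwards [k3, Lp.coeFn_smul (b j) (p j).2, h2 j] with x e1 e2 e3
      simp only [Pi.add_apply]
      rw [e1, e2, Pi.smul_apply, e3, jac_add ((h j).smul _).smooth k1.smooth, jac_smul]

theorem field_eq {n : ℕ} (a : Fin n → ℝ → ℝ) (φ : Fin n → E3 → E3) (t : ℝ) :
    (APP.field a φ t : E3 → E3) = ∑ i, a i t • φ i := by
  funext x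
  rw [Finset.sum_apply]
  rfl

/-- The residual equation in the abstract frame. -/
theorem residual_iff {Ω : Set E3} (hΩ : IsOpen Ω) {n : ℕ} (a : Fin n → ℝ → ℝ)
    (φ : Fin n → E3 → E3) (h : ∀ i, NS.IsTest Ω (φ i)) (p : Fin n → L2V Ω × L2M Ω)
    (hp : ∀ i, p i ∈ preW Ω) (h1 : ∀ i, (p i).1 =ᵐ[volume.restrict Ω] φ i)
    (h2 : ∀ i, (p i).2 =ᵐ[volume.restrict Ω] NS.jac (φ i)) (F : ℝ → L2M Ω) :
    Residual (show Set R3 from Ω) a φ F ↔ ∀ t ∈ Icc (0 : ℝ) 1, ∀ q ∈ preW Ω,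
      ⟪∑ i, deriv (a i) t • (p i).1, q.1⟫_ℝ
      = ⟪F t - (∑ i, a i t • (p i).2) + tensL (∑ i, a i t • (p i).1), q.2⟫_ℝ := by
  have hm : MeasurableSet Ω := hΩ.measurableSet
  have key : ∀ t, ∀ q : L2V Ω × L2M Ω, ∀ ψ : E3 → E3, NS.IsTest Ω ψ →
      q.1 =ᵐ[volume.restrict Ω] ψ → q.2 =ᵐ[volume.restrict Ω] NS.jac ψ →
      (((∫ x in (show Set R3 from Ω), ⟪APP.field (fun i => deriv (a i)) φ t x, ψ x⟫_ℝ)
        - (∫ x in (show Set R3 from Ω), ⟪APP.field a φ t x, fderiv ℝ (ψ : R3 → R3) x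
            (APP.field a φ t x)⟫_ℝ)
        + (∫ x in (show Set R3 from Ω), ⟪Pub.jac (APP.field a φ t) x, Pub.jac ψ x⟫_ℝ)
          = ∫ x in (show Set R3 from Ω), ⟪L2.fn (Ω := (show Set R3 from Ω)) (E := Mat) (F t) x,
            Pub.jac ψ x⟫_ℝ) ↔
      ⟪∑ i, deriv (a i) t • (p i).1, q.1⟫_ℝ
        = ⟪F t - (∑ i, a i t • (p i).2) + tensL (∑ i, a i t • (p i).1), q.2⟫_ℝ) := by
    intro t q ψ hψ hq1 hq2
    set v' : L2V Ω := ∑ i, deriv (a i) t • (p i).1 with hv'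
    set v : L2V Ω := ∑ i, a i t • (p i).1 with hv
    set z : L2M Ω := ∑ i, a i t • (p i).2 with hz
    obtain ⟨-, c1, -⟩ := sum_pair Finset.univ (fun i => deriv (a i) t) φ p h h1 h2
    obtain ⟨-, c2, c3⟩ := sum_pair Finset.univ (fun i => a i t) φ p h h1 h2
    have hvz : (v, z) ∈ graphW Ω := by
      have e1 : (v, z) = ∑ i, a i t • p i := by
        ext1
        · rw [Prod.fst_sum]; rfl
        · rw [Prod.snd_sum]; rfl
      rw [e1]
      exact Submodule.sum_mem _ fun i _ => Submodule.smul_mem _ _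
        (Submodule.le_topologicalClosure _ (hp i))
    have i1 : (∫ x in (show Set R3 from Ω), ⟪APP.field (fun i => deriv (a i)) φ t x, ψ x⟫_ℝ)
        = ⟪v', q.1⟫_ℝ := by
      rw [← pub_inner (Ω := Ω) v' hq1]
      refine integral_congr_ae (μ := (volume : Measure E3).restrict Ω) ?_
      filter_upwards [c1] with x hx
      have e1 : (APP.field (fun i => deriv (a i)) φ t : E3 → E3) x = v' x := by
        rw [field_eq, hx]
      exact congrArg (fun y : E3 => ⟪y, ψ x⟫_ℝ) e1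
    have i2 : (∫ x in (show Set R3 from Ω), ⟪APP.field a φ t x, fderiv ℝ (ψ : R3 → R3) x
            (APP.field a φ t x)⟫_ℝ)
        = ∫ x in (show Set R3 from Ω), ⟪L2.fn (Ω := (show Set R3 from Ω)) (E := R3) v x,
          fderiv ℝ (ψ : R3 → R3) x (L2.fn (Ω := (show Set R3 from Ω)) (E := R3) v x)⟫_ℝ := by
      refine integral_congr_ae (μ := (volume : Measure E3).restrict Ω) ?_
      filter_upwards [c2] with x hx
      have e1 : (APP.field a φ t : E3 → E3) x = v x := by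
        rw [field_eq, hx]
      exact congrArg (fun y : R3 => ⟪y, fderiv ℝ (ψ : R3 → R3) x y⟫_ℝ) e1
    have i3 : (∫ x in (show Set R3 from Ω), ⟪Pub.jac (APP.field a φ t) x, Pub.jac ψ x⟫_ℝ)
        = ∫ x in (show Set R3 from Ω), ⟪L2.fn (Ω := (show Set R3 from Ω)) (E := Mat) z x,
          Pub.jac ψ x⟫_ℝ := by
      refine integral_congr_ae (μ := (volume : Measure E3).restrict Ω) ?_
      filter_upwards [c3] with x hx
      have e1 : (Pub.jac (APP.field a φ t) x : M3) = z x := by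
        rw [jac_eq]
        have : (APP.field a φ t : E3 → E3) = ∑ i, a i t • φ i := field_eq a φ t
        rw [this, hx]
      exact congrArg (fun y : Mat => ⟪y, Pub.jac ψ x⟫_ℝ) e1
    have i4 : (∫ x in (show Set R3 from Ω), ⟪L2.fn (Ω := (show Set R3 from Ω)) (E := R3) v x,
          fderiv ℝ (ψ : R3 → R3) x (L2.fn (Ω := (show Set R3 from Ω)) (E := R3) v x)⟫_ℝ)
        - 1 * (∫ x in (show Set R3 from Ω), ⟪L2.fn (Ω := (show Set R3 from Ω)) (E := Mat) z x,
          Pub.jac ψ x⟫_ℝ)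
        + (∫ x in (show Set R3 from Ω), ⟪L2.fn (Ω := (show Set R3 from Ω)) (E := Mat) (F t) x,
            Pub.jac ψ x⟫_ℝ) = ⟪F t - (1 : ℝ) • z + tensL v, q.2⟫_ℝ :=
      pub_rhs (Ω := Ω) hm 1 (F t) hvz hq2
    rw [one_smul, one_mul] at i4
    rw [← i4, i1, i2, i3]
    constructor
    · intro h5; linarith
    · intro h5; linarith
  constructor
  · intro hR t ht q hq
    obtain ⟨ψ, k1, k2, k3⟩ := hq
    exact (key t q ψ k1 k2 k3).1 (hR t ht ψ ((isTest_iff ψ).mpr k1))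
  · intro hR t ht ψ hψ
    have hψ' := (isTest_iff (Ω := Ω) ψ).mp hψ
    have e1 : MemLp ψ 2 (volume.restrict Ω) := (hψ'.memLp 2).restrict _
    have e2 : MemLp (NS.jac ψ) 2 (volume.restrict Ω) := (hψ'.jac_memLp 2).restrict _
    exact (key t (e1.toLp ψ, e2.toLp _) ψ hψ' e1.coeFn_toLp e2.coeFn_toLp).2
      (hR t ht _ ⟨ψ, hψ', e1.coeFn_toLp, e2.coeFn_toLp⟩)

end Pool.Agent.H303.AP
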