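import Pool.Agent.H303.AP.Fin

set_option autoImplicit false
set_option linter.unusedSectionVars false

open MeasureTheory Set Filter Topology
open scoped InnerProductSpace ContDiff

namespace Pool.Agent.H303.AP

open H772R2 H772R2.NS H772R2.NS.Pub H772R2.NSR
open Pool.Agent.W795.TQ Pool.Agent.X187.NSD Pool.Agent.X187.NSC Pool.Agent.H303.APP

theorem grad_sq {Ω : Set E3} {n : ℕ} (a : Fin n → ℝ → ℝ)
    (φ : Fin n → E3 → E3) (h : ∀ i, NS.IsTest Ω (φ i)) (p : Fin n → L2V Ω × L2M Ω)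
    (h1 : ∀ i, (p i).1 =ᵐ[volume.restrict Ω] φ i)
    (h2 : ∀ i, (p i).2 =ᵐ[volume.restrict Ω] NS.jac (φ i)) (t : ℝ) :
    ∫ x in (show Set R3 from Ω), ‖Pub.jac (APP.field a φ t) x‖ ^ 2
      = ‖∑ i, a i t • (p i).2‖ ^ 2 := by
  obtain ⟨-, -, c3⟩ := sum_pair Finset.univ (fun i => a i t) φ p h h1 h2
  have e0 : ‖∑ i, a i t • (p i).2‖ ^ 2
      = ∫ x in Ω, ‖((∑ i, a i t • (p i).2 : L2M Ω) : E3 → M3) x‖ ^ 2 := by
    rw [← real_inner_self_eq_norm_sq, L2.inner_def]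
    exact integral_congr_ae (Eventually.of_forall fun x => real_inner_self_eq_norm_sq _)
  rw [e0]
  refine integral_congr_ae (μ := (volume : Measure E3).restrict Ω) ?_
  filter_upwards [c3] with x hx
  have e1 : (Pub.jac (APP.field a φ t) x : M3)
      = ((∑ i, a i t • (p i).2 : L2M Ω) : E3 → M3) x := by
    rw [jac_eq]
    have : (APP.field a φ t : E3 → E3) = ∑ i, a i t • φ i := field_eq a φ t
    rw [this, hx]
  exact congrArg (fun y : M3 => ‖y‖ ^ 2) e1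

theorem apriori_iff {Ω : Set E3} (hΩ : IsOpen Ω) :
    Apriori (preW Ω) (tensL (Ω := Ω)) ↔
    ∀ R : ℝ, ∃ M : ℝ, ∀ (n : ℕ) (a : Fin n → ℝ → ℝ) (φ : Fin n → R3 → R3)
      (F F' : ℝ → L2 (show Set R3 from Ω) Mat), Starts (show Set R3 from Ω) a φ →
      IsH1 1 F F' → F 0 = 0 → Residual (show Set R3 from Ω) a φ F →
      (∫ t in (0 : ℝ)..1, ‖F' t‖ ^ 2) ≤ R →
      ∫ x in (show Set R3 from Ω), ‖Pub.jac (APP.field a φ 1) x‖ ^ 2 ≤ M := by
  constructor
  · intro hA R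
    obtain ⟨M, hM⟩ := hA R
    refine ⟨M, fun n a φ F F' hS hF hF0 hRes hR => ?_⟩
    have ht : ∀ i, NS.IsTest Ω (φ i) := fun i => (isTest_iff (Ω := Ω) (φ i)).mp (hS.test i)
    have e1 : ∀ i, MemLp (φ i) 2 (volume.restrict Ω) := fun i => ((ht i).memLp 2).restrict _
    have e2 : ∀ i, MemLp (NS.jac (φ i)) 2 (volume.restrict Ω) :=
      fun i => ((ht i).jac_memLp 2).restrict _
    let p : Fin n → L2V Ω × L2M Ω := fun i => ((e1 i).toLp (φ i), (e2 i).toLp _)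
    have h1 : ∀ i, (p i).1 =ᵐ[volume.restrict Ω] φ i := fun i => (e1 i).coeFn_toLp
    have h2 : ∀ i, (p i).2 =ᵐ[volume.restrict Ω] NS.jac (φ i) := fun i => (e2 i).coeFn_toLp
    have hp : ∀ i, p i ∈ preW Ω := fun i => ⟨φ i, ht i, h1 i, h2 i⟩
    rw [grad_sq a φ ht p h1 h2]
    exact hM (Fin n) a p F F' (fun i => ⟨hS.smooth i, hS.supp i⟩) hp ⟨hF.memLp, hF.prim⟩ hF0
      ((residual_iff hΩ a φ ht p hp h1 h2 F).1 hRes) hR
  · intro hP R
    obtain ⟨M, hM⟩ := hP R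
    refine ⟨M, fun ι _ a p F F1 ha hp hF hF0 heq hR => ?_⟩
    choose φ ht h1 h2 using hp
    let e := Fintype.equivFin ι
    have s1 : ∀ (b : ι → ℝ), ∑ i, b (e.symm i) • (p (e.symm i)).1 = ∑ i, b i • (p i).1 :=
      fun b => e.symm.sum_comp (fun i => b i • (p i).1)
    have s2 : ∀ (b : ι → ℝ), ∑ i, b (e.symm i) • (p (e.symm i)).2 = ∑ i, b i • (p i).2 :=
      fun b => e.symm.sum_comp (fun i => b i • (p i).2)
    have key := hM (Fintype.card ι) (fun i => a (e.symm i)) (fun i => φ (e.symm i)) F F1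
      ⟨fun i => (isTest_iff (Ω := Ω) _).mpr (ht _), fun i => (ha _).smooth, fun i => (ha _).supp⟩
      ⟨hF.memLp, hF.prim⟩ hF0
      ((residual_iff hΩ (fun i => a (e.symm i)) (fun i => φ (e.symm i)) (fun i => ht _)
        (fun i => p (e.symm i)) (fun i => ⟨_, ht _, h1 _, h2 _⟩) (fun i => h1 _) (fun i => h2 _)
        F).2 (fun t ht' q hq => by
          have r1 := s1 (fun i => deriv (a i) t)
          have r2 := s1 (fun i => a i t)
          have r3 := s2 (fun i => a i t)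
          rw [r1, r2, r3]
          exact heq t ht' q hq)) hR
    rw [grad_sq (fun i => a (e.symm i)) (fun i => φ (e.symm i)) (fun i => ht _)
      (fun i => p (e.symm i)) (fun i => h1 _) (fun i => h2 _)] at key
    have r3 := s2 (fun i => a i 1)
    rwa [r3] at key

/-- The main equivalences in the abstract form. -/
theorem main {Ω : Set E3} (hΩ : IsOpen Ω) (hb : Bornology.IsBounded Ω) :
    List.TFAE [
      ∀ ν T : ℝ, 0 < ν → 0 < T → ∀ d : Data (show Set R3 from Ω), d.Admissible ν T →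
        d.Regular ν T,
      ∃ ν T : ℝ, 0 < ν ∧ 0 < T ∧ ∃ d₀ : Data (show Set R3 from Ω), d₀.Admissible ν T ∧
        ∀ d : Data (show Set R3 from Ω), d.Admissible ν T → d.u₀ = d₀.u₀ → d.F 0 = d₀.F 0 →
          d.Regular ν T,
      ∀ R : ℝ, ∃ M : ℝ, ∀ (n : ℕ) (a : Fin n → ℝ → ℝ) (φ : Fin n → R3 → R3)
        (F F' : ℝ → L2 (show Set R3 from Ω) Mat), Starts (show Set R3 from Ω) a φ →
        IsH1 1 F F' → F 0 = 0 → Residual (show Set R3 from Ω) a φ F →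
        (∫ t in (0 : ℝ)..1, ‖F' t‖ ^ 2) ≤ R →
        ∫ x in (show Set R3 from Ω), ‖Pub.jac (APP.field a φ 1) x‖ ^ 2 ≤ M] := by
  obtain ⟨c, hc, hU⟩ := Pool.Agent.W52.TQ.proof_univ
  obtain ⟨C, Fr⟩ := H772R2.NSR.exists_frame hΩ hb
  have Un := hU _ hΩ
  have hcomp := H772R2.NSR.rellich_W hΩ hb
  obtain ⟨J, P, B, O⟩ := exists_op Fr (quadr hΩ.measurableSet)
  tfae_have 1 → 2 := by
    intro h
    have hz : (ofDat (zdat : Dat (L2V Ω) (L2M Ω))).Admissible 1 1 :=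
      (adm_iff hΩ _).1 (zdat_adm (ν := 1) (T := 1) O)
    exact ⟨1, 1, one_pos, one_pos, _, hz, fun d hd _ _ => h 1 1 one_pos one_pos d hd⟩
  tfae_have 2 → 1 := by
    rintro ⟨ν, T, hν, hT, d₀, hd₀, h⟩ ν0 T0 hν0 hT0 d hd
    by_contra hbad
    have hd' := (adm_iff hΩ d).2 hd
    have hbad' : ¬ Good (graphW Ω) tensL ν0 T0 (toDat d) := fun hg =>
      hbad ((good_iff hΩ Fr hT0 d hd').1 hg)
    have hd0' := (adm_iff hΩ d₀).2 hd₀
    obtain ⟨e, he, hex, -, heF, -, heb⟩ := bad_dat O Fr hν hT hd0'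
      (propagate O Fr hcomp hν0 hT0 hd' hbad' hν hT hd0')
    have he' : (ofDat e).Admissible ν T := (adm_iff hΩ (ofDat e)).1 he
    exact heb ((good_iff hΩ Fr hT (ofDat e) he).2 (h (ofDat e) he' hex heF))
  tfae_have 1 → 3 := by
    intro h
    rw [← apriori_iff hΩ]
    refine apriori_of_good O Fr Un hcomp rfl fun d hd => ?_
    exact (good_iff hΩ Fr one_pos (ofDat d) hd).2
      (h 1 1 one_pos one_pos (ofDat d) ((adm_iff hΩ (ofDat d)).1 hd))
  tfae_have 3 → 1 := by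
    intro h ν T hν hT d hd
    rw [← apriori_iff hΩ] at h
    have hd' := (adm_iff hΩ d).2 hd
    exact (good_iff hΩ Fr hT d hd').1 (good_of_apriori O Fr hcomp rfl h hν hT hd')
  tfae_finish

end Pool.Agent.H303.AP
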