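import Pool.Agent.H303.AP.Ramp
import Pool.Graph.R_pool_sql_team_seeded_64922ed1.X187.NSC.Core

set_option autoImplicit false
set_option linter.unusedSectionVars false

open MeasureTheory Set Filter Topology
open scoped InnerProductSpace ContDiff

namespace Pool.Agent.H303.AP

open H772R2.NSR (Frame prim_cont grad_unique)
open Pool.Agent.W795.TQ
open Pool.Agent.X187.NSC (int_sub_le prim_half Dat Adm Good uni_abs)

variable {H K : Type} [NormedAddCommGroup H] [InnerProductSpace ℝ H] [CompleteSpace H]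
  [NormedAddCommGroup K] [InnerProductSpace ℝ K] [CompleteSpace K]
  {W : Submodule ℝ (H × K)} {m : H → K} {C c ν T : ℝ} {J : K →L[ℝ] H} {P : K →L[ℝ] K}
  {B : K →L[ℝ] K →L[ℝ] K}

/-- The a priori inequality for finite sums. -/
def Apriori (D : Submodule ℝ (H × K)) (m : H → K) : Prop :=
  ∀ R : ℝ, ∃ M : ℝ, ∀ (ι : Type) [Fintype ι] (a : ι → ℝ → ℝ) (p : ι → H × K) (F F1 : ℝ → K),
    (∀ i, IsRamp (a i)) → (∀ i, p i ∈ D) → FH 1 F F1 → F 0 = 0 →
    (∀ t ∈ Icc (0 : ℝ) 1, ∀ q ∈ D, ⟪∑ i, deriv (a i) t • (p i).1, q.1⟫_ℝ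
      = ⟪F t - (∑ i, a i t • (p i).2) + m (∑ i, a i t • (p i).1), q.2⟫_ℝ) →
    (∫ t in (0 : ℝ)..1, ‖F1 t‖ ^ 2) ≤ R → ‖∑ i, a i 1 • (p i).2‖ ^ 2 ≤ M

/-- The sums are strong solutions. -/
theorem sum_str (O : Op W m J P B) (Fr : Frame W m C) {D : Submodule ℝ (H × K)}
    (hDW : W = D.topologicalClosure) {ι : Type} [Fintype ι] {a : ι → ℝ → ℝ} {p : ι → H × K}
    {F F1 : ℝ → K} (ha : ∀ i, IsRamp (a i)) (hp : ∀ i, p i ∈ D) (hF : FH 1 F F1)
    (heq : ∀ t ∈ Icc (0 : ℝ) 1, ∀ q ∈ D, ⟪∑ i, deriv (a i) t • (p i).1, q.1⟫_ℝ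
      = ⟪F t - (∑ i, a i t • (p i).2) + m (∑ i, a i t • (p i).1), q.2⟫_ℝ) :
    Str W m 1 1 F (fun t => J (∑ i, a i t • (p i).2)) (fun t => J (∑ i, deriv (a i) t • (p i).2))
      (fun t => ∑ i, a i t • (p i).2) (fun t => ∑ i, deriv (a i) t • (p i).2) := by
  have hpW : ∀ i, p i ∈ W := fun i => by rw [hDW]; exact D.le_topologicalClosure (hp i)
  have hd : ∀ (b : ι → ℝ → ℝ), (∀ i, IsRamp (b i)) → ∀ t,
      HasDerivAt (fun t => ∑ i, b i t • (p i).2) (∑ i, deriv (b i) t • (p i).2) t := by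
    intro b hb t
    exact HasDerivAt.fun_sum fun i _ => ((hb i).hasDeriv t).smul_const _
  have hP : ∀ (b : ι → ℝ) , P (∑ i, b i • (p i).2) = ∑ i, b i • (p i).2 := by
    intro b
    rw [map_sum]
    refine Finset.sum_congr rfl fun i _ => ?_
    rw [map_smul, O.P_eq _ (hpW i)]
  have hJ : ∀ (b : ι → ℝ) , J (∑ i, b i • (p i).2) = ∑ i, b i • (p i).1 := by
    intro b
    rw [map_sum]
    refine Finset.sum_congr rfl fun i _ => ?_
    rw [map_smul, O.J_eq _ (hpW i)]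
  have hcont : Continuous fun t => ∑ i, deriv (deriv (a i)) t • (p i).2 :=
    continuous_finsetSum _ fun i _ => (ha i).d.d.smooth.continuous.smul continuous_const
  have hpath := Path.of_c2 (J := J) (P := P) (hd a ha) (hd (fun i => deriv (a i)) fun i => (ha i).d)
    hcont (fun t => hP _) (fun t => hP _) 1
  refine hpath.str O Fr one_pos (of_fh hF).cont fun t ht => ?_
  -- the equation
  refine ext_inner_right ℝ fun l => ?_
  have key : ∀ q ∈ W, ⟪∑ i, deriv (a i) t • (p i).1, q.1⟫_ℝ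
      = ⟪F t - (∑ i, a i t • (p i).2) + m (∑ i, a i t • (p i).1), q.2⟫_ℝ := by
    intro q hq
    rw [hDW] at hq
    have hcl : IsClosed {q : H × K | ⟪∑ i, deriv (a i) t • (p i).1, q.1⟫_ℝ
        = ⟪F t - (∑ i, a i t • (p i).2) + m (∑ i, a i t • (p i).1), q.2⟫_ℝ} :=
      isClosed_eq (by fun_prop) (by fun_prop)
    exact closure_minimal (fun q hq => heq t ht q hq) hcl hq
  have hm : m (∑ i, a i t • (p i).1) = B (∑ i, a i t • (p i).2) (∑ i, a i t • (p i).2) := by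
    rw [← hJ]
    exact (O.B_eq _ (O.mem_of (hP _))).symm
  have k1 := key _ (O.mem l)
  simp only [frc]
  rw [O.P_symm, O.P_symm (_ - _)]
  rw [hm] at k1
  have e1 : ⟪RJ J (∑ i, deriv (a i) t • (p i).2), P l⟫_ℝ = ⟪∑ i, deriv (a i) t • (p i).1, J l⟫_ℝ := by
    rw [RJ_inner, hJ, O.JP]
  rw [one_smul, inner_sub_left, inner_add_left, e1, k1, inner_add_left, inner_sub_left]
  ring

/-- The zero data. -/
def zdat : Dat H K := ⟨0, 0, fun _ => 0, fun _ => 0, 0⟩

theorem zdat_adm (O : Op W m J P B) : Adm W m ν T (zdat : Dat H K) := by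
  refine ⟨W.zero_mem, (PR.const T (0 : K)).fh, fun p hp => ?_⟩
  have hm : m 0 = 0 := by
    have := O.B_eq 0 W.zero_mem
    simpa using this.symm
  simp [zdat, hm]

/-- A bad force gives bad data with the same initial state. -/
theorem bad_dat (O : Op W m J P B) (Fr : Frame W m C) (hν : 0 < ν) (hT : 0 < T) {d : Dat H K}
    (hd : Adm W m ν T d) (h : BF J P B ν T d.z (P (d.F 0) - ν • d.z + P (B d.z d.z))) :
    ∃ d' : Dat H K, Adm W m ν T d' ∧ d'.x = d.x ∧ d'.z = d.z ∧ d'.F 0 = d.F 0 ∧ d'.g = d.g ∧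
      ¬ Good W m ν T d' := by
  obtain ⟨F, F1, hF, h⟩ := h
  have hPz : P d.z = d.z := O.P_eq _ hd.mem
  have hF0 : P (F 0) = P (d.F 0) := by
    obtain ⟨t, h1, h2, z, z1, q, q1, h3, h4, h5, h6, h7⟩ := h 0
    rw [h6 0 ⟨le_rfl, h1.le⟩, frc, h4, h5]
    simp only [map_add, map_sub, map_smul, O.PP, hPz]
    abel
  have hG : PR T (fun t => P (F t) + (d.F 0 - P (d.F 0))) (fun t => P (F1 t) + 0) :=
    (hF.map P).add (PR.const T _)
  have hG0 : P (F 0) + (d.F 0 - P (d.F 0)) = d.F 0 := by rw [hF0]; abel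
  have hPG : ∀ t, P (P (F t) + (d.F 0 - P (d.F 0))) = P (F t) := by
    intro t
    simp only [map_add, map_sub, O.PP]
    abel
  refine ⟨⟨d.x, d.z, fun t => P (F t) + (d.F 0 - P (d.F 0)), fun t => P (F1 t) + 0, d.g⟩,
    ⟨hd.mem, hG.fh, ?_⟩, rfl, rfl, hG0, rfl, ?_⟩
  · intro p hp
    simp only [hG0]
    exact hd.comp p hp
  · refine bad_of_unb Fr hν hG.fh fun N => ?_
    obtain ⟨t, h1, h2, z, z1, q, q1, h3, h4, h5, h6, h7⟩ := h N
    refine ⟨t, h1, h2, _, _, _, _, h3.str O Fr h1 (hG.mono h2).cont fun s hs => ?_, ?_, h7⟩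
    · exact (hPG s).trans (h6 s hs)
    · show J (z 0) = d.x
      rw [h4]
      exact O.J_eq _ hd.mem

/-- Regularity for all data implies the a priori inequality. -/
theorem apriori_of_good (O : Op W m J P B) (Fr : Frame W m C) (Un : Univ W m c)
    (hcomp : ∀ R : ℝ, TotallyBounded {v : H | ∃ z, (v, z) ∈ W ∧ ‖z‖ ≤ R})
    {D : Submodule ℝ (H × K)} (hDW : W = D.topologicalClosure)
    (Q : ∀ d : Dat H K, Adm W m 1 1 d → Good W m 1 1 d) : Apriori D m := by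
  intro R
  obtain ⟨M, hM, h⟩ := uni_abs Fr Un one_pos one_pos hcomp Q (le_max_right R 0)
  refine ⟨M ^ 2, fun ι _ a p F F1 ha hp hF hF0 heq hR => ?_⟩
  have S := sum_str O Fr hDW ha hp hF heq
  have hm : m 0 = 0 := by
    have := O.B_eq 0 W.zero_mem
    simpa using this.symm
  have hadm : Adm W m 1 1 (⟨0, 0, F, F1, 0⟩ : Dat H K) := by
    refine ⟨W.zero_mem, hF, fun p hp => ?_⟩
    simp [hF0, hm]
  have hsz : (⟨0, 0, F, F1, 0⟩ : Dat H K).size 1 ≤ max R 0 := by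
    simp only [Dat.size, hF0]
    simp only [norm_zero, ne_eq, OfNat.ofNat_ne_zero, not_false_eq_true, zero_pow, zero_add,
      add_zero]
    exact hR.trans (le_max_left _ _)
  have h0 : J (∑ i, a i 0 • (p i).2) = 0 := by
    have : ∑ i, a i 0 • (p i).2 = 0 := Finset.sum_eq_zero fun i _ => by
      rw [(ha i).zero le_rfl, zero_smul]
    rw [this, map_zero]
  have := h _ hadm hsz 1 one_pos le_rfl _ _ _ _ S h0 1 ⟨zero_le_one, le_rfl⟩
  gcongr

/-- The a priori inequality implies regularity for all data. -/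
theorem good_of_apriori (O : Op W m J P B) (Fr : Frame W m C)
    (hcomp : ∀ R : ℝ, TotallyBounded {v : H | ∃ z, (v, z) ∈ W ∧ ‖z‖ ≤ R})
    {D : Submodule ℝ (H × K)} (hDW : W = D.topologicalClosure) (A : Apriori D m) {ν0 T0 : ℝ}
    (hν0 : 0 < ν0) (hT0 : 0 < T0) {d0 : Dat H K} (hd0 : Adm W m ν0 T0 d0) :
    Good W m ν0 T0 d0 := by
  by_contra hb
  have hBF := propagate O Fr hcomp hν0 hT0 hd0 hb one_pos one_pos (zdat_adm (ν := 1) (T := 1) O)
  simp only [zdat, map_zero, smul_zero, sub_zero, add_zero] at hBF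
  obtain ⟨F, F1, hF, h⟩ := hBF
  set R0 : ℝ := ∫ t in (0 : ℝ)..1, ‖F1 t‖ ^ 2 with hR0
  obtain ⟨M, hM⟩ := A (R0 + 1 + 1)
  obtain ⟨t, h1, h2, z, z1, q, q1, S, h4, h5, h6, h7⟩ := h (√M + 3)
  have hR0t : ∫ s in (0 : ℝ)..t, ‖F1 s‖ ^ 2 ≤ R0 :=
    int_sub_le hF.sq (fun _ => by positivity) le_rfl le_rfl h1.le h2
  obtain ⟨w, w1, w2, a1, a2, a3, a4, a5, a6, a7, a8⟩ := approx1 O 1 h1 h2 S h4 h5 (hF.mono h2) h6
    hR0t one_pos
  -- the dense subspace
  let D2 : Submodule ℝ K := D.map (LinearMap.snd ℝ H K)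
  have hDle : D ≤ W := by rw [hDW]; exact D.le_topologicalClosure
  have hPD : ∀ p ∈ D2, P p = p := by
    rintro p ⟨q, hq, rfl⟩
    exact O.P_eq _ (hDle hq)
  have hD2 : ∀ k, P k ∈ closure (D2 : Set K) := by
    intro k
    have h8 : (J k, P k) ∈ closure (D : Set (H × K)) := by
      have := O.mem k
      rw [hDW] at this
      exact this
    exact map_mem_closure (f := (Prod.snd : H × K → K)) continuous_snd h8
      fun q hq => ⟨q, hq, rfl⟩
  obtain ⟨y, b1, b2, b3, b4⟩ := approx2 O 1 hPD hD2 a1 a2 a3 a4 a5 a6 a7 one_pos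
  obtain ⟨ι, _, a, k, c1, c2, c3, c4, c5⟩ := b1.ramps
  choose p p1 p2 using c2
  have hpk : ∀ i, (p i).2 = k i := fun i => p2 i
  have hJk : ∀ i, J (k i) = (p i).1 := fun i => by
    rw [← hpk]; exact O.J_eq _ (hDle (p1 i))
  have hPk : ∀ i, P (k i) = k i := fun i => by
    rw [← hpk]; exact O.P_eq _ (hDle (p1 i))
  set Y : ℝ → K := prm (prm y) with hY
  set Y1 : ℝ → K := prm y with hY1
  have q2 : PR 1 Y1 y := prm_PR b2 1
  have q1' : PR 1 Y Y1 := prm_PR (prm_cont b2) 1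
  have hfr : PR 1 (frc 1 B Y (fun t => RJ J (Y1 t))) (frc1 1 B Y Y1 (fun t => RJ J (y t))) :=
    ((q2.map (RJ J)).add (q1'.smul 1)).sub (q1'.bil B q1')
  have hfin := hM ι a p _ _ c1 p1 (hfr.map P).fh ?_ ?_ ?_
  · have e1 : ∑ i, a i 1 • (p i).2 = Y 1 := by
      rw [c5]
      exact Finset.sum_congr rfl fun i _ => by rw [hpk]
    rw [e1] at hfin
    have e2 : ‖Y 1‖ ≤ √M := Real.le_sqrt_of_sq_le hfin
    linarith
  · show P (frc 1 B Y (fun t => RJ J (Y1 t)) 0) = 0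
    have e1 : Y 0 = 0 := prm_zero _
    have e2 : Y1 0 = 0 := prm_zero _
    simp only [frc, e1, e2]
    simp
  · intro s _ r hr
    have hrW := hDle hr
    have e1 : ∑ i, deriv (a i) s • (p i).1 = J (Y1 s) := by
      rw [c4, map_sum]
      exact Finset.sum_congr rfl fun i _ => by rw [map_smul, hJk]
    have e2 : ∑ i, a i s • (p i).2 = Y s := by
      rw [c5]
      exact Finset.sum_congr rfl fun i _ => by rw [hpk]
    have e3 : ∑ i, a i s • (p i).1 = J (Y s) := by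
      rw [c5, map_sum]
      exact Finset.sum_congr rfl fun i _ => by rw [map_smul, hJk]
    have e4 : P (Y s) = Y s := by
      rw [c5, map_sum]
      exact Finset.sum_congr rfl fun i _ => by rw [map_smul, hPk]
    have e5 : m (J (Y s)) = B (Y s) (Y s) := (O.B_eq _ (O.mem_of e4)).symm
    rw [e1, e2, e3, e5]
    have e6 : ⟪J (Y1 s), r.1⟫_ℝ = ⟪RJ J (Y1 s), r.2⟫_ℝ := by
      rw [RJ_inner, O.J_eq _ hrW]
    rw [e6, inner_add_left, inner_sub_left, O.inner_P hrW]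
    simp only [frc, one_smul]
    rw [inner_sub_left, inner_add_left]
    ring
  · rw [intervalIntegral.integral_of_le zero_le_one]
    exact b3

end Pool.Agent.H303.AP
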