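import Pool.Agent.H303.DS.Mos

set_option autoImplicit false

open MeasureTheory Set Filter Topology
open scoped InnerProductSpace

namespace Pool.Agent.H303.AP

open H772R2.NSR (Frame prim_cont grad_unique)

variable {H K : Type} [NormedAddCommGroup H] [InnerProductSpace ℝ H] [CompleteSpace H]
  [NormedAddCommGroup K] [InnerProductSpace ℝ K] [CompleteSpace K]
  {W : Submodule ℝ (H × K)} {m : H → K} {C : ℝ}

/-- `m` is quadratic on the fields in `W`. -/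
structure Quadr (W : Submodule ℝ (H × K)) (m : H → K) : Prop where
  add3 : ∀ p ∈ W, ∀ q ∈ W, ∀ r ∈ W,
    m (p.1 + q.1 + r.1) + m p.1 + m q.1 + m r.1 = m (p.1 + q.1) + m (p.1 + r.1) + m (q.1 + r.1)
  hom : ∀ (a : ℝ), ∀ p ∈ W, ∀ q ∈ W,
    m (a • p.1 + q.1) - m (a • p.1) - m q.1 = a • (m (p.1 + q.1) - m p.1 - m q.1)
  sq : ∀ (a : ℝ), ∀ p ∈ W, m (a • p.1) = (a ^ 2) • m p.1

/-- The operators of the frame: `J` the inverse of the gradient, `P` the projection on the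
gradients, `B` the bilinear form. -/
structure Op (W : Submodule ℝ (H × K)) (m : H → K) (J : K →L[ℝ] H) (P : K →L[ℝ] K)
    (B : K →L[ℝ] K →L[ℝ] K) : Prop where
  J_eq : ∀ p ∈ W, J p.2 = p.1
  mem : ∀ k, (J k, P k) ∈ W
  P_eq : ∀ p ∈ W, P p.2 = p.2
  P_symm : ∀ k l, ⟪P k, l⟫_ℝ = ⟪k, P l⟫_ℝ
  B_eq : ∀ p ∈ W, B p.2 p.2 = m p.1
  B_symm : ∀ k l, B k l = B l k

set_option linter.unusedSectionVars false

/-- The gradient space. -/
def grads (W : Submodule ℝ (H × K)) : Submodule ℝ K := W.map (LinearMap.snd ℝ H K)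

theorem grads_closed (Fr : Frame W m C) : IsClosed (grads W : Set K) := by
  have hc : IsClosed (W : Set (H × K)) := Fr.closedW
  apply IsSeqClosed.isClosed
  intro f k hf hk
  have hf' : ∀ n, ∃ x, (x, f n) ∈ W := by
    intro n
    obtain ⟨p, hp, h2⟩ := hf n
    exact ⟨p.1, by rw [← show p.2 = f n from h2]; exact hp⟩
  choose x hx using hf'
  have hcau : CauchySeq x := by
    have h1 : CauchySeq f := hk.cauchySeq
    rw [Metric.cauchySeq_iff'] at h1 ⊢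
    intro ε hε
    obtain ⟨N, hN⟩ := h1 (ε / C) (div_pos hε Fr.C0)
    refine ⟨N, fun n hn => ?_⟩
    have h2 := Fr.poinc _ (W.sub_mem (hx n) (hx N))
    simp only [Prod.mk_sub_mk] at h2
    rw [dist_eq_norm]
    have h3 := hN n hn
    rw [dist_eq_norm, lt_div_iff₀ Fr.C0] at h3
    linarith
  obtain ⟨y, hy⟩ := cauchySeq_tendsto_of_complete hcau
  have hmem : (y, k) ∈ W := hc.mem_of_tendsto (hy.prodMk_nhds hk) (Eventually.of_forall hx)
  exact ⟨_, hmem, rfl⟩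

theorem exists_J (Fr : Frame W m C) :
    ∃ (J : K →L[ℝ] H) (P : K →L[ℝ] K), (∀ p ∈ W, J p.2 = p.1) ∧ (∀ k, (J k, P k) ∈ W) ∧
      (∀ p ∈ W, P p.2 = p.2) ∧ ∀ k l, ⟪P k, l⟫_ℝ = ⟪k, P l⟫_ℝ := by
  have hcl := grads_closed Fr
  have : CompleteSpace (grads W) := hcl.completeSpace_coe
  -- the inverse of the second projection
  have hex' : ∀ z : K, z ∈ grads W → ∃ x, (x, z) ∈ W := by
    rintro z ⟨p, hp, h2⟩
    exact ⟨p.1, by rw [← show p.2 = z from h2]; exact hp⟩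
  have hex : ∀ z : grads W, ∃ x, (x, (z : K)) ∈ W := fun z => hex' z z.2
  choose j hj using hex
  have huniq : ∀ (x y : H) (k : K), (x, k) ∈ W → (y, k) ∈ W → x = y := by
    intro x y k h1 h2
    have h3 := Fr.poinc _ (W.sub_mem h1 h2)
    simp only [Prod.mk_sub_mk, sub_self, norm_zero, mul_zero] at h3
    exact sub_eq_zero.1 (norm_le_zero_iff.1 h3)
  let J0 : grads W →ₗ[ℝ] H :=
    { toFun := j
      map_add' := fun a b => huniq _ _ _ (hj (a + b)) (by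
        have := W.add_mem (hj a) (hj b)
        simpa using this)
      map_smul' := fun r a => huniq _ _ _ (hj (r • a)) (by
        have := W.smul_mem r (hj a)
        simpa using this) }
  let J1 : grads W →L[ℝ] H := J0.mkContinuous C (fun z => Fr.poinc _ (hj z))
  let Q : K →L[ℝ] grads W := (grads W).orthogonalProjectionOnto
  refine ⟨J1.comp Q, (grads W).subtypeL.comp Q, ?_, ?_, ?_, ?_⟩
  · intro p hp
    have h1 : p.2 ∈ grads W := ⟨p, hp, rfl⟩
    have h2 : Q p.2 = ⟨p.2, h1⟩ := Submodule.orthogonalProjectionOnto_mem_subspace_eq_self (⟨p.2, h1⟩ : grads W)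
    show j (Q p.2) = p.1
    rw [h2]
    exact huniq _ _ _ (hj _) hp
  · intro k
    exact hj (Q k)
  · intro p hp
    have h1 : p.2 ∈ grads W := ⟨p, hp, rfl⟩
    have h2 : Q p.2 = ⟨p.2, h1⟩ := Submodule.orthogonalProjectionOnto_mem_subspace_eq_self (⟨p.2, h1⟩ : grads W)
    show ((Q p.2 : grads W) : K) = p.2
    rw [h2]
  · intro k l
    exact Submodule.inner_starProjection_left_eq_right (grads W) k l

/-- The bound of `m` by the gradient. -/
theorem m_le (Fr : Frame W m C) {p : H × K} (hp : p ∈ W) : ‖m p.1‖ ≤ C * ‖p.2‖ ^ 2 := by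
  have h1 := Fr.quart p hp
  have h2 := Fr.poinc p hp
  have hC := Fr.C0
  have h3 : ‖m p.1‖ ^ 2 ≤ (C * ‖p.2‖ ^ 2) ^ 2 := by
    calc ‖m p.1‖ ^ 2 ≤ C * (‖p.1‖ * ‖p.2‖ ^ 3) := h1
      _ ≤ C * (C * ‖p.2‖ * ‖p.2‖ ^ 3) := by gcongr
      _ = (C * ‖p.2‖ ^ 2) ^ 2 := by ring
  exact (pow_le_pow_iff_left₀ (norm_nonneg _) (by positivity) (by norm_num)).mp h3

theorem exists_op (Fr : Frame W m C) (Q : Quadr W m) :
    ∃ (J : K →L[ℝ] H) (P : K →L[ℝ] K) (B : K →L[ℝ] K →L[ℝ] K), Op W m J P B := by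
  obtain ⟨J, P, h1, h2, h3, h4⟩ := exists_J Fr
  have hC := Fr.C0
  have hm0 : m 0 = 0 := by
    have := Q.sq 0 0 W.zero_mem
    simpa using this
  -- the polar form
  let b : K → K → K := fun k l => (1 / 2 : ℝ) • (m (J k + J l) - m (J k) - m (J l))
  have hsymm : ∀ k l, b k l = b l k := by
    intro k l
    simp only [b]
    rw [add_comm (J l) (J k), sub_right_comm]
  have hadd : ∀ k k' l, b (k + k') l = b k l + b k' l := by
    intro k k' l
    have := Q.add3 _ (h2 k) _ (h2 k') _ (h2 l)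
    simp only at this
    simp only [b, map_add]
    rw [← smul_add]
    congr 1
    have e : m (J k + J k' + J l) = m (J k + J k') + m (J k + J l) + m (J k' + J l)
        - m (J k) - m (J k') - m (J l) := by
      rw [← this]; abel
    rw [e]; abel
  have hsmul : ∀ (r : ℝ) k l, b (r • k) l = r • b k l := by
    intro r k l
    have := Q.hom r _ (h2 k) _ (h2 l)
    simp only at this
    simp only [b, map_smul]
    rw [this, smul_comm]
  let B0 : K →ₗ[ℝ] K →ₗ[ℝ] K := LinearMap.mk₂ ℝ b hadd hsmul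
    (fun k l l' => by rw [hsymm, hadd, hsymm l, hsymm l'])
    (fun r k l => by rw [hsymm, hsmul, hsymm l])
  have hPn : ∀ k, ‖P k‖ ≤ ‖k‖ := by
    intro k
    have e1 : ⟪P k, P k⟫_ℝ = ⟪k, P k⟫_ℝ := by
      rw [h4 k (P k), h3 _ (h2 k)]
    have e2 : ‖P k‖ * ‖P k‖ ≤ ‖k‖ * ‖P k‖ := by
      rw [← real_inner_self_eq_norm_mul_norm, e1]
      exact real_inner_le_norm _ _
    rcases (norm_nonneg (P k)).eq_or_lt with h0 | h0
    · rw [← h0]; exact norm_nonneg _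
    · exact le_of_mul_le_mul_right e2 h0
  have hmJ : ∀ k, ‖m (J k)‖ ≤ C * ‖k‖ ^ 2 := fun k =>
    (m_le Fr (h2 k)).trans (by have := hPn k; gcongr)
  have hbd0 : ∀ k l, ‖b k l‖ ≤ 2 * C * (‖k‖ ^ 2 + ‖l‖ ^ 2) := by
    intro k l
    have e1 := hmJ (k + l)
    rw [map_add] at e1
    have e2 := hmJ k
    have e3 := hmJ l
    have e4 : ‖k + l‖ ^ 2 ≤ 2 * (‖k‖ ^ 2 + ‖l‖ ^ 2) := by
      have := norm_add_le k l
      nlinarith [norm_nonneg (k + l), sq_nonneg (‖k‖ - ‖l‖), norm_nonneg k, norm_nonneg l]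
    simp only [b]
    rw [norm_smul]
    have e5 : ‖m (J k + J l) - m (J k) - m (J l)‖ ≤ ‖m (J k + J l)‖ + ‖m (J k)‖ + ‖m (J l)‖ := by
      refine (norm_sub_le _ _).trans ?_
      gcongr
      exact norm_sub_le _ _
    rw [show ‖(1 / 2 : ℝ)‖ = 1 / 2 by norm_num]
    have e6 : C * ‖k + l‖ ^ 2 ≤ C * (2 * (‖k‖ ^ 2 + ‖l‖ ^ 2)) := by gcongr
    nlinarith [sq_nonneg ‖k‖, sq_nonneg ‖l‖]
  have hbd : ∀ k l, ‖B0 k l‖ ≤ 4 * C * ‖k‖ * ‖l‖ := by
    intro k l
    show ‖b k l‖ ≤ _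
    rcases eq_or_ne k 0 with rfl | hk
    · have : b 0 l = 0 := by
        have := hsmul 0 0 l
        simpa using this
      rw [this]; simp
    rcases eq_or_ne l 0 with rfl | hl
    · have : b k 0 = 0 := by
        rw [hsymm]
        have := hsmul 0 0 k
        simpa using this
      rw [this]; simp
    have hk0 : 0 < ‖k‖ := norm_pos_iff.2 hk
    have hl0 : 0 < ‖l‖ := norm_pos_iff.2 hl
    have e1 : b k l = (‖k‖ * ‖l‖) • b (‖k‖⁻¹ • k) (‖l‖⁻¹ • l) := by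
      have e0 : b (‖k‖⁻¹ • k) (‖l‖⁻¹ • l) = (‖k‖⁻¹ * ‖l‖⁻¹) • b k l := by
        rw [hsmul, hsymm k, hsmul, hsymm l, smul_smul]
      rw [e0, smul_smul, show ‖k‖ * ‖l‖ * (‖k‖⁻¹ * ‖l‖⁻¹) = 1 by field_simp, one_smul]
    have e2 := hbd0 (‖k‖⁻¹ • k) (‖l‖⁻¹ • l)
    have e3 : ‖‖k‖⁻¹ • k‖ = 1 := by
      rw [norm_smul, norm_inv, norm_norm, inv_mul_cancel₀ hk0.ne']
    have e4 : ‖‖l‖⁻¹ • l‖ = 1 := by
      rw [norm_smul, norm_inv, norm_norm, inv_mul_cancel₀ hl0.ne']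
    rw [e3, e4] at e2
    rw [e1, norm_smul, Real.norm_of_nonneg (by positivity)]
    nlinarith [mul_pos hk0 hl0]
  refine ⟨J, P, B0.mkContinuous₂ (4 * C) hbd, h1, h2, h3, h4, ?_, ?_⟩
  · intro p hp
    show b p.2 p.2 = m p.1
    simp only [b]
    rw [h1 p hp]
    have e1 := Q.sq 2 p hp
    rw [two_smul] at e1
    rw [e1]
    rw [show ((2 : ℝ) ^ 2) • m p.1 - m p.1 - m p.1 = (2 : ℝ) • m p.1 by
      rw [show ((2 : ℝ) ^ 2) = 1 + 1 + 2 by norm_num, add_smul, add_smul, one_smul]; abel]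
    rw [smul_smul]; norm_num
  · intro k l
    exact hsymm k l

end Pool.Agent.H303.AP
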