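import Pool.Agent.H303.AP.Path

set_option autoImplicit false
set_option linter.unusedSectionVars false

open MeasureTheory Set Filter Topology
open scoped InnerProductSpace

namespace Pool.Agent.H303.AP

open H772R2.NSR (Frame prim_cont grad_unique)
open Pool.Agent.W795.TQ

section ae

theorem ae_shift {T T' s : ℝ} (hs : 0 ≤ s) (hsT : s + T' ≤ T) {p : ℝ → Prop}
    (h : ∀ᵐ t ∂(volume.restrict (Ioc 0 T)), p t) : ∀ᵐ t ∂(volume.restrict (Ioc 0 T')), p (s + t) := by
  have hle : (volume.restrict (Ioc s (s + T')) : Measure ℝ) ≤ volume.restrict (Ioc 0 T) :=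
    Measure.restrict_mono (Ioc_subset_Ioc hs hsT) le_rfl
  exact (Pool.Agent.W933.HE.mp s T').quasiMeasurePreserving.ae (ae_mono hle h)

theorem ae_scale {T l : ℝ} (hl : 0 < l) {p : ℝ → Prop}
    (h : ∀ᵐ t ∂(volume.restrict (Ioc 0 T)), p t) :
    ∀ᵐ t ∂(volume.restrict (Ioc 0 (T / l))), p (l * t) := by
  have hq : Measure.QuasiMeasurePreserving (fun t : ℝ => l * t) (volume.restrict (Ioc 0 (T / l)))
      (volume.restrict (Ioc 0 T)) := by
    refine ⟨measurable_const_mul l, ?_⟩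
    have e1 : (fun t : ℝ => l * t) ⁻¹' Ioc 0 T = Ioc 0 (T / l) := by
      ext t
      simp only [mem_preimage, mem_Ioc]
      rw [le_div_iff₀ hl, mul_comm t l]
      constructor
      · rintro ⟨h1, h2⟩
        exact ⟨(mul_pos_iff_of_pos_left hl).1 h1, h2⟩
      · rintro ⟨h1, h2⟩
        exact ⟨mul_pos hl h1, h2⟩
    rw [← e1, ← Measure.restrict_map (measurable_const_mul l) measurableSet_Ioc,
      Real.map_volume_mul_left hl.ne', Measure.restrict_smul]
    exact Measure.smul_absolutelyContinuous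
  exact hq.ae h

end ae

variable {H K : Type} [NormedAddCommGroup H] [InnerProductSpace ℝ H] [CompleteSpace H]
  [NormedAddCommGroup K] [InnerProductSpace ℝ K] [CompleteSpace K]
  {W : Submodule ℝ (H × K)} {m : H → K} {C ν T : ℝ} {J : K →L[ℝ] H} {P : K →L[ℝ] K}
  {B : K →L[ℝ] K →L[ℝ] K}

theorem Path.shift {z z1 q q1 : ℝ → K} (S : Path J P T z z1 q q1) {s T' : ℝ} (hs : 0 ≤ s)
    (hsT : s + T' ≤ T) : Path J P T' (fun t => z (s + t)) (fun t => z1 (s + t))
      (fun t => q (s + t)) (fun t => q1 (s + t)) := by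
  obtain ⟨c, hc⟩ := S.bd
  exact ⟨S.pz.shift hs hsT, S.pq.shift hs hsT,
    fun t ht => S.Pz _ ⟨by linarith [ht.1], by linarith [ht.2]⟩, ae_shift hs hsT S.Pz1,
    ae_shift hs hsT S.eq, ⟨c, ae_shift hs hsT hc⟩⟩

theorem Path.mono {z z1 q q1 : ℝ → K} (S : Path J P T z z1 q q1) {T' : ℝ} (hT : T' ≤ T) :
    Path J P T' z z1 q q1 := by
  have hle : (volume.restrict (Ioc 0 T') : Measure ℝ) ≤ volume.restrict (Ioc 0 T) :=
    Measure.restrict_mono (Ioc_subset_Ioc_right hT) le_rfl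
  obtain ⟨c, hc⟩ := S.bd
  exact ⟨S.pz.mono hT, S.pq.mono hT, fun t ht => S.Pz _ ⟨ht.1, ht.2.trans hT⟩,
    ae_mono hle S.Pz1, ae_mono hle S.eq, ⟨c, ae_mono hle hc⟩⟩

theorem Path.scale {z z1 q q1 : ℝ → K} (S : Path J P T z z1 q q1) {l : ℝ} (hl : 0 < l) :
    Path J P (T / l) (fun t => l • z (l * t)) (fun t => (l ^ 2) • z1 (l * t))
      (fun t => (l ^ 2) • q (l * t)) (fun t => (l ^ 3) • q1 (l * t)) := by
  obtain ⟨c, hc⟩ := S.bd
  refine ⟨?_, ?_, ?_, ?_, ?_, ⟨l ^ 2 * c, ?_⟩⟩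
  · have := (S.pz.scale hl).smul l
    simpa only [smul_smul, ← sq] using this
  · have := (S.pq.scale hl).smul (l ^ 2)
    simpa only [smul_smul, ← pow_succ] using this
  · intro t ht
    have h1 : l * t ≤ T := by
      have := ht.2
      rw [le_div_iff₀ hl] at this
      linarith
    rw [map_smul, S.Pz _ ⟨mul_nonneg hl.le ht.1, h1⟩]
  · filter_upwards [ae_scale hl S.Pz1] with s hs
    rw [map_smul, hs]
  · filter_upwards [ae_scale hl S.eq] with s hs
    rw [map_smul, hs]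
  · filter_upwards [ae_scale hl hc] with s hs
    rw [map_smul, norm_smul, Real.norm_of_nonneg (by positivity)]
    gcongr

theorem Path.cat {a b : ℝ} (ha : 0 ≤ a) (hb : 0 ≤ b) {z z1 q q1 y y1 r r1 : ℝ → K}
    (S : Path J P a z z1 q q1) (S' : Path J P b y y1 r r1) (hz : z a = y 0) (hq : q a = r 0) :
    Path J P (a + b) (cat a z y) (cat a z1 y1) (cat a q r) (cat a q1 r1) := by
  obtain ⟨c, hc⟩ := S.bd
  obtain ⟨c', hc'⟩ := S'.bd
  have main : ∀ (p : K → K → Prop), (∀ᵐ s ∂(volume.restrict (Ioc 0 a)), p (z1 s) (q s)) →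
      (∀ᵐ s ∂(volume.restrict (Ioc 0 b)), p (y1 s) (r s)) →
      ∀ᵐ s ∂(volume.restrict (Ioc 0 (a + b))), p (AP.cat a z1 y1 s) (AP.cat a q r s) := by
    intro p h1 h2
    refine ae_cat ha hb ?_ ?_
    · filter_upwards [h1, ae_restrict_mem measurableSet_Ioc] with s hs hs'
      rwa [cat_le hs'.2, cat_le hs'.2]
    · filter_upwards [h2, ae_restrict_mem measurableSet_Ioc] with s hs hs'
      have : a < a + s := by linarith [hs'.1]
      rwa [cat_gt this, cat_gt this, add_sub_cancel_left]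
  refine ⟨S.pz.cat ha hb S'.pz hz, S.pq.cat ha hb S'.pq hq, ?_, main (fun x _ => P x = x) S.Pz1 S'.Pz1,
    main (fun x y => RJ J x = y) S.eq S'.eq, ⟨max c c', main (fun x _ => ‖J x‖ ≤ max c c') ?_ ?_⟩⟩
  · intro t ht
    rcases le_or_gt t a with h | h
    · rw [cat_le h]; exact S.Pz t ⟨ht.1, h⟩
    · rw [cat_gt h]; exact S'.Pz _ ⟨by linarith, by linarith [ht.2]⟩
  · filter_upwards [hc] with s hs using hs.trans (le_max_left _ _)
  · filter_upwards [hc'] with s hs using hs.trans (le_max_right _ _)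

/-- Twice continuously differentiable paths. -/
theorem Path.of_c2 {z z1 z2 : ℝ → K} (h1 : ∀ t, HasDerivAt z (z1 t) t)
    (h2 : ∀ t, HasDerivAt z1 (z2 t) t) (hc : Continuous z2) (hP : ∀ t, P (z t) = z t)
    (hP1 : ∀ t, P (z1 t) = z1 t) (T : ℝ) :
    Path J P T z z1 (fun t => RJ J (z1 t)) (fun t => RJ J (z2 t)) := by
  have hc1 : Continuous z1 := continuous_iff_continuousAt.2 fun t => (h2 t).continuousAt
  refine ⟨PR.of_deriv h1 hc1, (PR.of_deriv h2 hc).map _, fun t _ => hP t,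
    Eventually.of_forall hP1, Eventually.of_forall fun _ => rfl, ?_⟩
  obtain ⟨M, hM⟩ := (isCompact_Icc (a := (0 : ℝ)) (b := T)).exists_bound_of_continuousOn
    (f := fun t => J (z1 t)) (J.continuous.comp hc1).continuousOn
  refine ⟨M, ?_⟩
  filter_upwards [ae_restrict_mem measurableSet_Ioc] with t ht
  exact hM t (Ioc_subset_Icc_self ht)

/-- Interpolation between two states. -/
theorem hermite {h : ℝ} (hh : 0 < h) {a0 a1 b0 b1 : K} (ha0 : P a0 = a0) (ha1 : P a1 = a1)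
    (hb0 : P b0 = b0) (hb1 : P b1 = b1) :
    ∃ z z1 q q1 : ℝ → K, Path J P h z z1 q q1 ∧ z 0 = a0 ∧ q 0 = RJ J a1 ∧ z h = b0 ∧
      q h = RJ J b1 := by
  let c2 : K := (h ^ 2)⁻¹ • ((3 : ℝ) • (b0 - a0) - h • ((2 : ℝ) • a1 + b1))
  let c3 : K := (h ^ 3)⁻¹ • ((2 : ℝ) • (a0 - b0) + h • (a1 + b1))
  have hc2 : P c2 = c2 := by simp only [c2, map_smul, map_sub, map_add, ha0, ha1, hb0, hb1]
  have hc3 : P c3 = c3 := by simp only [c3, map_smul, map_sub, map_add, ha0, ha1, hb0, hb1]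
  let z : ℝ → K := fun t => a0 + t • a1 + (t ^ 2) • c2 + (t ^ 3) • c3
  let z1 : ℝ → K := fun t => a1 + (2 * t) • c2 + (3 * t ^ 2) • c3
  let z2 : ℝ → K := fun t => (2 : ℝ) • c2 + (6 * t) • c3
  have h1 : ∀ t, HasDerivAt z (z1 t) t := by
    intro t
    have e1 : HasDerivAt (fun t : ℝ => t • a1) ((1 : ℝ) • a1) t := (hasDerivAt_id t).smul_const a1
    have e2 : HasDerivAt (fun t : ℝ => (t ^ 2) • c2) ((2 * t) • c2) t := by
      have := (hasDerivAt_pow 2 t).smul_const c2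
      simpa using this
    have e3 : HasDerivAt (fun t : ℝ => (t ^ 3) • c3) ((3 * t ^ 2) • c3) t := by
      have := (hasDerivAt_pow 3 t).smul_const c3
      simpa using this
    have := (((hasDerivAt_const t a0).fun_add e1).fun_add e2).fun_add e3
    simpa [z, z1] using this
  have h2 : ∀ t, HasDerivAt z1 (z2 t) t := by
    intro t
    have e2 : HasDerivAt (fun t : ℝ => (2 * t) • c2) ((2 : ℝ) • c2) t := by
      have := ((hasDerivAt_id t).const_mul 2).smul_const c2
      simpa using this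
    have e3 : HasDerivAt (fun t : ℝ => (3 * t ^ 2) • c3) ((6 * t) • c3) t := by
      have := ((hasDerivAt_pow 2 t).const_mul 3).smul_const c3
      convert this using 2
      push_cast; ring
    have := ((hasDerivAt_const t a1).fun_add e2).fun_add e3
    simpa [z1, z2] using this
  have hc : Continuous z2 := by fun_prop
  refine ⟨z, z1, _, _, Path.of_c2 (J := J) (P := P) h1 h2 hc ?_ ?_ h, ?_, ?_, ?_, ?_⟩
  · intro t
    simp only [z, map_add, map_smul, ha0, ha1, hc2, hc3]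
  · intro t
    simp only [z1, map_add, map_smul, ha1, hc2, hc3]
  · simp [z]
  · simp [z1]
  · simp only [z, c2, c3]
    have hh' : h ≠ 0 := hh.ne'
    rw [smul_smul, smul_smul, mul_inv_cancel₀ (by positivity), mul_inv_cancel₀ (by positivity)]
    simp only [one_smul]
    module
  · congr 1
    simp only [z1, c2, c3]
    have hh' : h ≠ 0 := hh.ne'
    rw [smul_smul, smul_smul]
    have e1 : 2 * h * (h ^ 2)⁻¹ = 2 * h⁻¹ := by field_simp
    have e2 : 3 * h ^ 2 * (h ^ 3)⁻¹ = 3 * h⁻¹ := by field_simp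
    rw [e1, e2]
    have e3 : ∀ (c : ℝ) (x : K), (c * h⁻¹) • (h • x) = c • x := fun c x => by
      rw [smul_smul, mul_assoc, inv_mul_cancel₀ hh', mul_one]
    rw [smul_sub, smul_add (3 * h⁻¹), e3, e3]
    module

end Pool.Agent.H303.AP
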