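import Pool.Agent.H303.AP.Pr
import Pool.Graph.R_pool_sql_team_seeded_64922ed1.X187.NSC.Bridge
import Pool.Graph.R_seed8.W503.TQ.Uni

set_option autoImplicit false
set_option linter.unusedSectionVars false

open MeasureTheory Set Filter Topology
open scoped InnerProductSpace

namespace Pool.Agent.H303.AP

open H772R2.NSR (Frame prim_cont grad_unique)
open Pool.Agent.W795.TQ
open Pool.Agent.X187.NSC (int_sub_le str_deriv_weak energy_of_weak str_toLH Dat Adm Good)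

variable {H K : Type} [NormedAddCommGroup H] [InnerProductSpace ℝ H] [CompleteSpace H]
  [NormedAddCommGroup K] [InnerProductSpace ℝ K] [CompleteSpace K]
  {W : Submodule ℝ (H × K)} {m : H → K} {C ν T : ℝ} {J : K →L[ℝ] H} {P : K →L[ℝ] K}
  {B : K →L[ℝ] K →L[ℝ] K}

/-- `(R k, l) = (J k, J l)`. -/
noncomputable def RJ (J : K →L[ℝ] H) : K →L[ℝ] K := (ContinuousLinearMap.adjoint J).comp J

theorem RJ_inner (k l : K) : ⟪RJ J k, l⟫_ℝ = ⟪J k, J l⟫_ℝ := by
  show ⟪ContinuousLinearMap.adjoint J (J k), l⟫_ℝ = _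
  rw [ContinuousLinearMap.adjoint_inner_left]

/-- A path of gradients with the regularity of a strong solution; `q = R z'`. -/
structure Path (J : K →L[ℝ] H) (P : K →L[ℝ] K) (T : ℝ) (z z1 q q1 : ℝ → K) : Prop where
  pz : PR T z z1
  pq : PR T q q1
  Pz : ∀ t ∈ Icc 0 T, P (z t) = z t
  Pz1 : ∀ᵐ s ∂(volume.restrict (Ioc 0 T)), P (z1 s) = z1 s
  eq : ∀ᵐ s ∂(volume.restrict (Ioc 0 T)), RJ J (z1 s) = q s
  bd : ∃ c, ∀ᵐ s ∂(volume.restrict (Ioc 0 T)), ‖J (z1 s)‖ ≤ c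

/-- The force of a path. -/
noncomputable def frc (ν : ℝ) (B : K →L[ℝ] K →L[ℝ] K) (z q : ℝ → K) : ℝ → K :=
  fun t => q t + ν • z t - B (z t) (z t)

noncomputable def frc1 (ν : ℝ) (B : K →L[ℝ] K →L[ℝ] K) (z z1 q1 : ℝ → K) : ℝ → K :=
  fun t => q1 t + ν • z1 t - (B (z1 t) (z t) + B (z t) (z1 t))

theorem Path.frc {z z1 q q1 : ℝ → K} (S : Path J P T z z1 q q1) :
    PR T (frc ν B z q) (frc1 ν B z z1 q1) :=
  (S.pq.add (S.pz.smul ν)).sub (S.pz.bil B S.pz)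

theorem Op.mem_of (O : Op W m J P B) {k : K} (h : P k = k) : (J k, k) ∈ W := by
  have := O.mem k
  rwa [h] at this

theorem Op.JP (O : Op W m J P B) (k : K) : J (P k) = J k := O.J_eq _ (O.mem k)

theorem Op.PP (O : Op W m J P B) (k : K) : P (P k) = P k := O.P_eq _ (O.mem k)

theorem Op.PR' (O : Op W m J P B) (k : K) : P (RJ J k) = RJ J k := by
  refine ext_inner_right ℝ fun l => ?_
  rw [O.P_symm, RJ_inner, RJ_inner, O.JP]

theorem Op.inner_P (O : Op W m J P B) {p : H × K} (hp : p ∈ W) (k : K) :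
    ⟪P k, p.2⟫_ℝ = ⟪k, p.2⟫_ℝ := by rw [O.P_symm, O.P_eq p hp]

/-- Paths give strong solutions. -/
theorem Path.str (O : Op W m J P B) (Fr : Frame W m C) (hT : 0 < T) {z z1 q q1 F : ℝ → K}
    (S : Path J P T z z1 q q1) (hFc : ContinuousOn F (Icc 0 T))
    (hF : ∀ t ∈ Icc 0 T, P (F t) = P (AP.frc ν B z q t)) :
    Str W m ν T F (fun t => J (z t)) (fun t => J (z1 t)) z z1 := by
  have hmem : ∀ t ∈ Icc 0 T, (J (z t), z t) ∈ W := fun t ht => O.mem_of (S.Pz t ht)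
  have hmem1 : ∀ᵐ s ∂(volume.restrict (Ioc 0 T)), (J (z1 s), z1 s) ∈ W := by
    filter_upwards [S.Pz1] with s hs using O.mem_of hs
  have hu := S.pz.map J
  have hweak : ∀ p ∈ W, ∀ t ∈ Icc 0 T, ⟪J (z t) - J (z 0), p.1⟫_ℝ
      = ∫ s in (0 : ℝ)..t, ⟪F s - ν • z s + m (J (z s)), p.2⟫_ℝ := by
    intro p hp t ht
    rw [hu.prim 0 t le_rfl ht.1 ht.2]
    have hi := hu.ii le_rfl ht.1 ht.2
    rw [intervalIntegral.integral_of_le ht.1, intervalIntegral.integral_of_le ht.1,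
      real_inner_comm, ← integral_inner ((intervalIntegrable_iff_integrableOn_Ioc_of_le ht.1).1 hi)]
    refine integral_congr_ae ?_
    have hle : (volume.restrict (Ioc 0 t) : Measure ℝ) ≤ volume.restrict (Ioc 0 T) :=
      Measure.restrict_mono (Ioc_subset_Ioc_right ht.2) le_rfl
    filter_upwards [ae_mono hle S.eq, ae_restrict_mem measurableSet_Ioc] with s hs hs'
    have hsI : s ∈ Icc 0 T := ⟨hs'.1.le, hs'.2.trans ht.2⟩
    have e1 : ⟪p.1, J (z1 s)⟫_ℝ = ⟪q s, p.2⟫_ℝ := by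
      rw [← hs, RJ_inner, O.J_eq p hp, real_inner_comm]
    have e2 : m (J (z s)) = B (z s) (z s) := (O.B_eq _ (hmem s hsI)).symm
    have e3 : ⟪F s, p.2⟫_ℝ = ⟪AP.frc ν B z q s, p.2⟫_ℝ := by
      rw [← O.inner_P hp, hF s hsI, O.inner_P hp]
    rw [e1, e2, inner_add_left, inner_sub_left, e3, AP.frc, inner_sub_left, inner_add_left]
    ring
  obtain ⟨c, hc⟩ := S.bd
  exact ⟨hmem, hmem1, ⟨c, hc⟩, hu.memLp, S.pz.memLp, hu.prim, S.pz.prim, hweak,
    energy_of_weak Fr hT hFc hmem hu.memLp S.pz.memLp hu.prim S.pz.prim hweak⟩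

/-- Strong solutions give paths. -/
theorem path_of_str (O : Op W m J P B) (Fr : Frame W m C) (hT : 0 < T) {F F1 : ℝ → K}
    {u u1 : ℝ → H} {z z1 : ℝ → K} (hF : PR T F F1) (S : Str W m ν T F u u1 z z1) :
    Path J P T z z1 (fun t => P (F t) - ν • z t + P (B (z t) (z t)))
      (fun t => P (F1 t) - ν • z1 t + P (B (z1 t) (z t) + B (z t) (z1 t))) := by
  have hz : PR T z z1 := ⟨S.z1m, S.pz⟩
  have hPz1 : ∀ᵐ s ∂(volume.restrict (Ioc 0 T)), P (z1 s) = z1 s := by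
    filter_upwards [S.mem1] with s hs using O.P_eq _ hs
  refine ⟨hz, ((hF.map P).sub (hz.smul ν)).add ((hz.bil B hz).map P),
    fun t ht => O.P_eq _ (S.mem t ht), hPz1, ?_, ?_⟩
  · filter_upwards [str_deriv_weak Fr hT hF.fh S, S.mem1, hPz1, ae_restrict_mem measurableSet_Ioc]
      with s hs hs1 hs2 hs3
    have hsI : s ∈ Icc 0 T := Ioc_subset_Icc_self hs3
    refine ext_inner_right ℝ fun l => ?_
    have e0 := hs _ (O.mem l)
    have e1 : ⟪RJ J (z1 s), l⟫_ℝ = ⟪u1 s, J l⟫_ℝ := by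
      rw [RJ_inner, O.J_eq _ hs1]
    have e2 : m (u s) = B (z s) (z s) := (O.B_eq _ (S.mem s hsI)).symm
    have e3 : ∀ k, ⟪k, P l⟫_ℝ = ⟪P k, l⟫_ℝ := fun k => (O.P_symm k l).symm
    simp only at e0
    have e4 : P (z s) = z s := O.P_eq _ (S.mem s hsI)
    rw [e1, e0, e2, e3, map_add, map_sub, map_smul, e4]
  · obtain ⟨c, hc⟩ := S.bd
    refine ⟨c, ?_⟩
    filter_upwards [hc, S.mem1] with s hs hs1
    have := O.J_eq _ hs1
    simp only at this
    rwa [this]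

end Pool.Agent.H303.AP
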