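import Pool.Agent.H303.DS.Emb
import Pool.Agent.H303.AP.Op
import Pool.Graph.R_seed8.W503.TQ.Base
import Pool.Graph.R_pool_sql_team_seeded_64922ed1.X187.NSC.Shift

set_option autoImplicit false
set_option linter.unusedSectionVars false

open MeasureTheory Set Filter Topology
open scoped InnerProductSpace

namespace Pool.Agent.H303.AP

open H772R2.NSR (Frame prim_cont grad_unique)
open Pool.Agent.W795.TQ
open Pool.Agent.X187.NSC (int_sub_le)

variable {X Y K : Type} [NormedAddCommGroup X] [InnerProductSpace ℝ X] [CompleteSpace X]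
  [NormedAddCommGroup Y] [InnerProductSpace ℝ Y] [CompleteSpace Y]
  [NormedAddCommGroup K] [InnerProductSpace ℝ K] [CompleteSpace K]

/-- `f` is the primitive of `f1 ∈ L²` on `[0,T]`. -/
structure PR (T : ℝ) (f f1 : ℝ → X) : Prop where
  memLp : MemLp f1 2 (volume.restrict (Ioc 0 T))
  prim : ∀ a b, 0 ≤ a → a ≤ b → b ≤ T → f b - f a = ∫ s in a..b, f1 s

theorem PR.fh {T : ℝ} {f f1 : ℝ → X} (h : PR T f f1) : FH T f f1 := ⟨h.memLp, h.prim⟩
theorem of_fh {T : ℝ} {f f1 : ℝ → X} (h : FH T f f1) : PR T f f1 := ⟨h.memLp, h.prim⟩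

theorem fin_T (T : ℝ) : IsFiniteMeasure (volume.restrict (Ioc 0 T) : Measure ℝ) := by
  rw [isFiniteMeasure_restrict]; simp

theorem PR.cont {T : ℝ} {f f1 : ℝ → X} (h : PR T f f1) : ContinuousOn f (Icc 0 T) :=
  prim_cont h.memLp h.prim

theorem PR.ii {T : ℝ} {f f1 : ℝ → X} (h : PR T f f1) {a b : ℝ} (ha : 0 ≤ a) (hab : a ≤ b)
    (hb : b ≤ T) : IntervalIntegrable f1 volume a b := by
  have := fin_T T
  rw [intervalIntegrable_iff_integrableOn_Ioc_of_le hab]
  exact (h.memLp.integrable (by norm_num)).mono_measure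
    (Measure.restrict_mono (Ioc_subset_Ioc ha hb) le_rfl)

theorem PR.sq {T : ℝ} {f f1 : ℝ → X} (h : PR T f f1) :
    IntegrableOn (fun s => ‖f1 s‖ ^ 2) (Ioc 0 T) :=
  (memLp_two_iff_integrable_sq_norm h.memLp.aestronglyMeasurable).mp h.memLp

theorem PR.iisq {T : ℝ} {f f1 : ℝ → X} (h : PR T f f1) {a b : ℝ} (ha : 0 ≤ a) (hab : a ≤ b)
    (hb : b ≤ T) : IntervalIntegrable (fun s => ‖f1 s‖ ^ 2) volume a b := by
  rw [intervalIntegrable_iff_integrableOn_Ioc_of_le hab]
  exact h.sq.mono_set (Ioc_subset_Ioc ha hb)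

theorem PR.add {T : ℝ} {f f1 g g1 : ℝ → X} (hf : PR T f f1) (hg : PR T g g1) :
    PR T (fun t => f t + g t) (fun t => f1 t + g1 t) := by
  refine ⟨hf.memLp.add hg.memLp, fun a b ha hab hb => ?_⟩
  rw [intervalIntegral.integral_add (hf.ii ha hab hb) (hg.ii ha hab hb), ← hf.prim a b ha hab hb,
    ← hg.prim a b ha hab hb]
  abel

theorem PR.smul {T : ℝ} {f f1 : ℝ → X} (hf : PR T f f1) (c : ℝ) :
    PR T (fun t => c • f t) (fun t => c • f1 t) := by
  refine ⟨hf.memLp.const_smul c, fun a b ha hab hb => ?_⟩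
  rw [intervalIntegral.integral_smul, ← hf.prim a b ha hab hb, smul_sub]

theorem PR.sub {T : ℝ} {f f1 g g1 : ℝ → X} (hf : PR T f f1) (hg : PR T g g1) :
    PR T (fun t => f t - g t) (fun t => f1 t - g1 t) := by
  have := hf.add (hg.smul (-1))
  convert this using 2 with t <;> simp [sub_eq_add_neg]

theorem PR.const (T : ℝ) (x : X) : PR T (fun _ => x) (fun _ => 0) := by
  have := fin_T T
  refine ⟨MemLp.zero', fun a b _ _ _ => ?_⟩
  simp

theorem PR.congr {T : ℝ} {f f1 g g1 : ℝ → X} (h : PR T f f1) (hg : ∀ t ∈ Icc 0 T, g t = f t)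
    (hg1 : ∀ᵐ t ∂(volume.restrict (Ioc 0 T)), g1 t = f1 t) : PR T g g1 := by
  refine ⟨(memLp_congr_ae hg1).2 h.memLp, fun a b ha hab hb => ?_⟩
  rw [hg a ⟨ha, hab.trans hb⟩, hg b ⟨ha.trans hab, hb⟩, h.prim a b ha hab hb]
  refine intervalIntegral.integral_congr_ae ?_
  rw [uIoc_of_le hab]
  have h1 : ∀ᵐ t ∂(volume.restrict (Ioc a b)), g1 t = f1 t :=
    ae_mono (Measure.restrict_mono (Ioc_subset_Ioc ha hb) le_rfl) hg1
  rw [ae_restrict_iff' measurableSet_Ioc] at h1
  filter_upwards [h1] with t ht hm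
  exact (ht hm).symm

theorem PR.map {T : ℝ} {f f1 : ℝ → X} (A : X →L[ℝ] Y) (h : PR T f f1) :
    PR T (fun t => A (f t)) (fun t => A (f1 t)) :=
  of_fh (Pool.Agent.H303.DS.FH.map A h.fh)

theorem PR.mono {T τ : ℝ} {f f1 : ℝ → X} (h : PR T f f1) (hτ : τ ≤ T) : PR τ f f1 :=
  of_fh (Pool.Agent.X187.NSC.FH.mono h.fh hτ)

theorem PR.shift {T T' s : ℝ} {f f1 : ℝ → X} (h : PR T f f1) (hs : 0 ≤ s) (hsT : s + T' ≤ T) :
    PR T' (fun t => f (s + t)) (fun t => f1 (s + t)) :=
  of_fh (Pool.Agent.X187.NSC.FH.shift h.fh hs hsT)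

/-- The primitive of a continuously differentiable function. -/
theorem PR.of_deriv {T : ℝ} {f f1 : ℝ → X} (h : ∀ t, HasDerivAt f (f1 t) t)
    (hc : Continuous f1) : PR T f f1 := by
  have := fin_T T
  refine ⟨?_, fun a b _ _ _ => ?_⟩
  · obtain ⟨M, hM⟩ := (isCompact_Icc (a := (0 : ℝ)) (b := T)).exists_bound_of_continuousOn
      hc.continuousOn
    refine MemLp.of_bound hc.aestronglyMeasurable M ?_
    filter_upwards [ae_restrict_mem measurableSet_Ioc] with t ht
    exact hM t (Ioc_subset_Icc_self ht)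
  · exact (intervalIntegral.integral_eq_sub_of_hasDerivAt (fun t _ => h t)
      (hc.intervalIntegrable a b)).symm

/-- The product rule. -/
theorem PR.bil {T : ℝ} {f f1 g g1 : ℝ → K} (B : K →L[ℝ] K →L[ℝ] K) (hf : PR T f f1)
    (hg : PR T g g1) : PR T (fun t => B (f t) (g t)) (fun t => B (f1 t) (g t) + B (f t) (g1 t)) := by
  have := fin_T T
  have hfc := hf.cont
  have hgc := hg.cont
  obtain ⟨Mf, hMf⟩ := (isCompact_Icc (a := (0 : ℝ)) (b := T)).exists_bound_of_continuousOn hfc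
  obtain ⟨Mg, hMg⟩ := (isCompact_Icc (a := (0 : ℝ)) (b := T)).exists_bound_of_continuousOn hgc
  have mf : AEStronglyMeasurable f (volume.restrict (Ioc 0 T)) :=
    (hfc.mono Ioc_subset_Icc_self).aestronglyMeasurable measurableSet_Ioc
  have mg : AEStronglyMeasurable g (volume.restrict (Ioc 0 T)) :=
    (hgc.mono Ioc_subset_Icc_self).aestronglyMeasurable measurableSet_Ioc
  have hB : Continuous fun p : K × K => B p.1 p.2 := B.isBoundedBilinearMap.continuous
  have m1 : MemLp (fun t => B (f1 t) (g t)) 2 (volume.restrict (Ioc 0 T)) := by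
    refine MemLp.mono' (g := fun t => ‖B‖ * Mg * ‖f1 t‖) (hf.memLp.norm.const_mul _)
      (hB.comp_aestronglyMeasurable (hf.memLp.aestronglyMeasurable.prodMk mg)) ?_
    filter_upwards [ae_restrict_mem measurableSet_Ioc] with t ht
    have h1 := B.le_opNorm₂ (f1 t) (g t)
    have h2 := hMg t (Ioc_subset_Icc_self ht)
    calc ‖B (f1 t) (g t)‖ ≤ ‖B‖ * ‖f1 t‖ * ‖g t‖ := h1
      _ ≤ ‖B‖ * ‖f1 t‖ * Mg := by gcongr
      _ = _ := by ring
  have m2 : MemLp (fun t => B (f t) (g1 t)) 2 (volume.restrict (Ioc 0 T)) := by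
    refine MemLp.mono' (g := fun t => ‖B‖ * Mf * ‖g1 t‖) (hg.memLp.norm.const_mul _)
      (hB.comp_aestronglyMeasurable (mf.prodMk hg.memLp.aestronglyMeasurable)) ?_
    filter_upwards [ae_restrict_mem measurableSet_Ioc] with t ht
    have h1 := B.le_opNorm₂ (f t) (g1 t)
    have h2 := hMf t (Ioc_subset_Icc_self ht)
    calc ‖B (f t) (g1 t)‖ ≤ ‖B‖ * ‖f t‖ * ‖g1 t‖ := h1
      _ ≤ ‖B‖ * Mf * ‖g1 t‖ := by gcongr
  refine ⟨m1.add m2, fun a b ha hab hb => ?_⟩
  have i1 : IntegrableOn (fun t => B (f1 t) (g t)) (Ioc a b) :=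
    (m1.integrable (by norm_num)).mono_measure (Measure.restrict_mono (Ioc_subset_Ioc ha hb) le_rfl)
  have i2 : IntegrableOn (fun t => B (f t) (g1 t)) (Ioc a b) :=
    (m2.integrable (by norm_num)).mono_measure (Measure.restrict_mono (Ioc_subset_Ioc ha hb) le_rfl)
  refine ext_inner_right ℝ fun k => ?_
  -- the operator `A` with `⟪A x, y⟫ = ⟪B x y, k⟫`
  let β : K →L[ℝ] K →L[ℝ] ℝ := (ContinuousLinearMap.compL ℝ K K ℝ (innerSL ℝ k)).comp B
  let A : K →L[ℝ] K := InnerProductSpace.continuousLinearMapOfBilin (𝕜 := ℝ) β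
  have hA : ∀ x y, ⟪A x, y⟫_ℝ = ⟪B x y, k⟫_ℝ := by
    intro x y
    rw [InnerProductSpace.continuousLinearMapOfBilin_apply, real_inner_comm]
    rfl
  have hAf := hf.map A
  have key := Pool.Agent.W503.TQ.prod_rule hAf.memLp hg.memLp hAf.prim hg.prim ha hab hb
  simp only [hA] at key
  have e1 : ⟪∫ t in a..b, (B (f1 t) (g t) + B (f t) (g1 t)), k⟫_ℝ
      = (∫ t in a..b, ⟪B (f1 t) (g t), k⟫_ℝ) + ∫ t in a..b, ⟪B (f t) (g1 t), k⟫_ℝ := by
    rw [intervalIntegral.integral_of_le hab, intervalIntegral.integral_of_le hab,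
      intervalIntegral.integral_of_le hab, integral_add i1 i2, inner_add_left]
    have c1 : ⟪∫ t in Ioc a b, B (f1 t) (g t), k⟫_ℝ = ∫ t in Ioc a b, ⟪B (f1 t) (g t), k⟫_ℝ := by
      rw [real_inner_comm, ← integral_inner i1]
      exact integral_congr_ae (Eventually.of_forall fun t => real_inner_comm _ _)
    have c2 : ⟪∫ t in Ioc a b, B (f t) (g1 t), k⟫_ℝ = ∫ t in Ioc a b, ⟪B (f t) (g1 t), k⟫_ℝ := by
      rw [real_inner_comm, ← integral_inner i2]
      exact integral_congr_ae (Eventually.of_forall fun t => real_inner_comm _ _)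
    rw [c1, c2]
  rw [e1, key, inner_sub_left]

/-- Change of the time scale. -/
theorem PR.scale {T l : ℝ} (hl : 0 < l) {f f1 : ℝ → X} (h : PR T f f1) :
    PR (T / l) (fun t => f (l * t)) (fun t => l • f1 (l * t)) := by
  have hfin := fin_T T
  -- the scaled function is in `L²`
  have hmul : Measure.map (fun t : ℝ => l * t) (volume.restrict (Ioc 0 (T / l)))
      = ENNReal.ofReal l⁻¹ • volume.restrict (Ioc 0 T) := by
    have e1 : (fun t : ℝ => l * t) ⁻¹' Ioc 0 T = Ioc 0 (T / l) := by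
      ext t
      simp only [mem_preimage, mem_Ioc]
      rw [le_div_iff₀ hl, mul_comm t l]
      constructor
      · rintro ⟨h1, h2⟩
        exact ⟨(mul_pos_iff_of_pos_left hl).1 h1, h2⟩
      · rintro ⟨h1, h2⟩
        exact ⟨mul_pos hl h1, h2⟩
    rw [← e1, ← Measure.restrict_map (measurable_const_mul l) measurableSet_Ioc]
    have e2 : Measure.map (fun t : ℝ => l * t) volume = ENNReal.ofReal |l⁻¹| • volume :=
      Real.map_volume_mul_left hl.ne'
    rw [e2, abs_of_pos (inv_pos.2 hl), Measure.restrict_smul]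
  have hm : MemLp (fun t => f1 (l * t)) 2 (volume.restrict (Ioc 0 (T / l))) := by
    have h1 : MemLp f1 2 (Measure.map (fun t : ℝ => l * t) (volume.restrict (Ioc 0 (T / l)))) := by
      rw [hmul]
      exact h.memLp.smul_measure ENNReal.ofReal_ne_top
    exact h1.comp_of_map (measurable_const_mul l).aemeasurable
  refine ⟨hm.const_smul l, fun a b ha hab hb => ?_⟩
  have hb' : l * b ≤ T := by rw [le_div_iff₀ hl] at hb; linarith
  rw [h.prim (l * a) (l * b) (by positivity) (by gcongr) hb', intervalIntegral.integral_smul]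
  have := intervalIntegral.smul_integral_comp_mul_left (a := a) (b := b) f1 l
  rw [this]

open Classical in
/-- Concatenation: `f` up to the time `a`, then `g` (with the time starting at `a`). -/
noncomputable def cat (a : ℝ) (f g : ℝ → X) : ℝ → X := fun t => if t ≤ a then f t else g (t - a)

theorem cat_le {a t : ℝ} (h : t ≤ a) (f g : ℝ → X) : cat a f g t = f t := if_pos h

theorem cat_gt {a t : ℝ} (h : a < t) (f g : ℝ → X) : cat a f g t = g (t - a) :=
  if_neg (not_le.2 h)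

theorem cat_ge {a t : ℝ} (h : a ≤ t) {f g : ℝ → X} (hfg : f a = g 0) :
    cat a f g t = g (t - a) := by
  rcases h.eq_or_lt with rfl | h
  · rw [cat_le le_rfl, sub_self, hfg]
  · exact cat_gt h _ _

theorem mp_sub (a b : ℝ) : MeasurePreserving (fun t : ℝ => t - a)
    (volume.restrict (Ioc a (a + b))) (volume.restrict (Ioc 0 b)) := by
  have h1 := measurePreserving_sub_right (volume : Measure ℝ) a
  have h2 := h1.restrict_preimage (s := Ioc (0 : ℝ) b) measurableSet_Ioc
  convert h2 using 2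
  ext t
  simp only [mem_preimage, mem_Ioc]
  constructor
  · rintro ⟨k1, k2⟩; constructor <;> linarith
  · rintro ⟨k1, k2⟩; constructor <;> linarith

theorem Ioc_split {a b : ℝ} (ha : 0 ≤ a) (hb : 0 ≤ b) : Ioc 0 (a + b) = Ioc 0 a ∪ Ioc a (a + b) :=
  (Ioc_union_Ioc_eq_Ioc ha (by linarith)).symm

/-- almost everywhere properties of concatenations -/
theorem ae_cat {a b : ℝ} (ha : 0 ≤ a) (hb : 0 ≤ b) {p : ℝ → Prop}
    (h1 : ∀ᵐ s ∂(volume.restrict (Ioc 0 a)), p s)
    (h2 : ∀ᵐ s ∂(volume.restrict (Ioc 0 b)), p (a + s)) :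
    ∀ᵐ s ∂(volume.restrict (Ioc 0 (a + b))), p s := by
  rw [Ioc_split ha hb, ae_restrict_union_iff]
  refine ⟨h1, ?_⟩
  have h3 := (mp_sub a b).quasiMeasurePreserving.ae h2
  filter_upwards [h3] with s hs
  rwa [add_sub_cancel] at hs

theorem memLp_cat {a b : ℝ} (ha : 0 ≤ a) (hb : 0 ≤ b) {f g : ℝ → X}
    (hf : MemLp f 2 (volume.restrict (Ioc 0 a))) (hg : MemLp g 2 (volume.restrict (Ioc 0 b))) :
    MemLp (cat a f g) 2 (volume.restrict (Ioc 0 (a + b))) := by
  rw [Ioc_split ha hb]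
  have h1 : MemLp (cat a f g) 2 (volume.restrict (Ioc 0 a)) := by
    refine (memLp_congr_ae ?_).2 hf
    filter_upwards [ae_restrict_mem measurableSet_Ioc] with s hs
    exact cat_le hs.2 _ _
  have h2 : MemLp (cat a f g) 2 (volume.restrict (Ioc a (a + b))) := by
    refine (memLp_congr_ae ?_).2 (hg.comp_measurePreserving (mp_sub a b))
    filter_upwards [ae_restrict_mem measurableSet_Ioc] with s hs
    exact cat_gt hs.1 _ _
  have hm : AEStronglyMeasurable (cat a f g) (volume.restrict (Ioc 0 a ∪ Ioc a (a + b))) :=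
    aestronglyMeasurable_union_iff.2 ⟨h1.1, h2.1⟩
  rw [memLp_two_iff_integrable_sq_norm hm]
  have i1 : IntegrableOn (fun t => ‖cat a f g t‖ ^ 2) (Ioc 0 a) :=
    (memLp_two_iff_integrable_sq_norm h1.1).1 h1
  have i2 : IntegrableOn (fun t => ‖cat a f g t‖ ^ 2) (Ioc a (a + b)) :=
    (memLp_two_iff_integrable_sq_norm h2.1).1 h2
  exact i1.union i2

theorem int_cat_left {a : ℝ} (f g : ℝ → X) {s t : ℝ} (hs : 0 ≤ s) (hst : s ≤ t) (ht : t ≤ a) :
    ∫ r in s..t, cat a f g r = ∫ r in s..t, f r := by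
  refine intervalIntegral.integral_congr fun r hr => ?_
  rw [uIcc_of_le hst] at hr
  exact cat_le (hr.2.trans ht) _ _

theorem int_cat_right {a : ℝ} (f g : ℝ → X) {s t : ℝ} (hs : a ≤ s) (hst : s ≤ t) :
    ∫ r in s..t, cat a f g r = ∫ r in (s - a)..(t - a), g r := by
  rw [← intervalIntegral.integral_comp_sub_right (fun r => g r) a]
  refine intervalIntegral.integral_congr_ae ?_
  rw [uIoc_of_le hst]
  exact Eventually.of_forall fun r hr => cat_gt (hs.trans_lt hr.1) _ _

theorem PR.cat {a b : ℝ} (ha : 0 ≤ a) (hb : 0 ≤ b) {f f1 g g1 : ℝ → X} (hf : PR a f f1)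
    (hg : PR b g g1) (hfg : f a = g 0) : PR (a + b) (cat a f g) (cat a f1 g1) := by
  have hm := memLp_cat ha hb hf.memLp hg.memLp
  have hii : ∀ s t, 0 ≤ s → s ≤ t → t ≤ a + b → IntervalIntegrable (AP.cat a f1 g1) volume s t := by
    intro s t hs hst ht
    have := fin_T (a + b)
    rw [intervalIntegrable_iff_integrableOn_Ioc_of_le hst]
    exact (hm.integrable (by norm_num)).mono_measure
      (Measure.restrict_mono (Ioc_subset_Ioc hs ht) le_rfl)
  have k1 : ∀ s t, 0 ≤ s → s ≤ t → t ≤ a →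
      AP.cat a f g t - AP.cat a f g s = ∫ r in s..t, AP.cat a f1 g1 r := by
    intro s t hs hst ht
    rw [cat_le ht, cat_le (hst.trans ht), int_cat_left f1 g1 hs hst ht, hf.prim s t hs hst ht]
  have k2 : ∀ s t, a ≤ s → s ≤ t → t ≤ a + b →
      AP.cat a f g t - AP.cat a f g s = ∫ r in s..t, AP.cat a f1 g1 r := by
    intro s t hs hst ht
    rw [cat_ge (hs.trans hst) hfg, cat_ge hs hfg, int_cat_right f1 g1 hs hst,
      hg.prim (s - a) (t - a) (by linarith) (by linarith) (by linarith)]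
  refine ⟨hm, fun s t hs hst ht => ?_⟩
  rcases le_total t a with h1 | h1
  · exact k1 s t hs hst h1
  rcases le_total a s with h2 | h2
  · exact k2 s t h2 hst ht
  have e1 := k1 s a hs h2 le_rfl
  have e2 := k2 a t le_rfl h1 ht
  rw [← intervalIntegral.integral_add_adjacent_intervals (hii s a hs h2 (by linarith))
    (hii a t ha h1 ht), ← e1, ← e2]
  abel

/-- The square of the norm in `L²` of a concatenation. -/
theorem sq_cat {a b : ℝ} (ha : 0 ≤ a) (hb : 0 ≤ b) {f g : ℝ → X}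
    (hf : MemLp f 2 (volume.restrict (Ioc 0 a))) (hg : MemLp g 2 (volume.restrict (Ioc 0 b))) :
    ∫ r in (0 : ℝ)..(a + b), ‖cat a f g r‖ ^ 2
      = (∫ r in (0 : ℝ)..a, ‖f r‖ ^ 2) + ∫ r in (0 : ℝ)..b, ‖g r‖ ^ 2 := by
  have hm := memLp_cat ha hb hf hg
  have hi : IntegrableOn (fun t => ‖cat a f g t‖ ^ 2) (Ioc 0 (a + b)) :=
    (memLp_two_iff_integrable_sq_norm hm.1).1 hm
  have i1 : IntervalIntegrable (fun t => ‖cat a f g t‖ ^ 2) volume 0 a := by
    rw [intervalIntegrable_iff_integrableOn_Ioc_of_le ha]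
    exact hi.mono_set (Ioc_subset_Ioc_right (by linarith))
  have i2 : IntervalIntegrable (fun t => ‖cat a f g t‖ ^ 2) volume a (a + b) := by
    rw [intervalIntegrable_iff_integrableOn_Ioc_of_le (by linarith)]
    exact hi.mono_set (Ioc_subset_Ioc_left ha)
  rw [← intervalIntegral.integral_add_adjacent_intervals i1 i2]
  congr 1
  · refine intervalIntegral.integral_congr fun r hr => ?_
    rw [uIcc_of_le ha] at hr
    simp only [cat_le hr.2]
  · have e := intervalIntegral.integral_comp_sub_right (a := a) (b := a + b)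
      (fun r => ‖g r‖ ^ 2) a
    rw [sub_self, add_sub_cancel_left] at e
    rw [← e]
    refine intervalIntegral.integral_congr_ae ?_
    rw [uIoc_of_le (by linarith)]
    refine Eventually.of_forall fun r hr => ?_
    simp only [cat_gt hr.1]

end Pool.Agent.H303.AP
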