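import Pool.Agent.H303.AP.Ops
import Pool.Graph.R_seed8.W52.TQ.Loc

set_option autoImplicit false
set_option linter.unusedSectionVars false

open MeasureTheory Set Filter Topology
open scoped InnerProductSpace

namespace Pool.Agent.H303.AP

open H772R2.NSR (Frame prim_cont grad_unique)
open Pool.Agent.W795.TQ
open Pool.Agent.X187.NSC (int_sub_le str_deriv_weak energy_of_weak str_toLH Dat Adm Good ext_FH)

variable {H K : Type} [NormedAddCommGroup H] [InnerProductSpace ℝ H] [CompleteSpace H]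
  [NormedAddCommGroup K] [InnerProductSpace ℝ K] [CompleteSpace K]
  {W : Submodule ℝ (H × K)} {m : H → K} {C c ν T : ℝ} {J : K →L[ℝ] H} {P : K →L[ℝ] K}
  {B : K →L[ℝ] K →L[ℝ] K}

/-- Strong solutions with the same data coincide. -/
theorem str_unique (Fr : Frame W m C) (hν : 0 < ν) {F F1 : ℝ → K} (hF : PR T F F1)
    {u u1 v v1 : ℝ → H} {z z1 y y1 : ℝ → K} (S : Str W m ν T F u u1 z z1) {τ : ℝ} (hτ : 0 < τ)
    (hτT : τ ≤ T) (S' : Str W m ν τ F v v1 y y1) (h0 : u 0 = v 0) :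
    ∀ t ∈ Icc 0 τ, z t = y t := by
  obtain ⟨h1, -⟩ := Pool.Agent.W503.TQ.proof_uni H K W m C ν T τ F (u 0) u v v1 z y y1 Fr hν hτ hτT
    hF.cont (str_toLH Fr hF.fh S) S' h0.symm
  intro t ht
  have h2 := S.mem t ⟨ht.1, ht.2.trans hτT⟩
  rw [h1 t ht] at h2
  exact grad_unique Fr h2 (S'.mem t ht)

/-- For every `N` there is a strong solution on an interval `[0,t]`, `t ≤ T`, with
`‖∇u(t)‖ ≥ N`. -/
def Unb (W : Submodule ℝ (H × K)) (m : H → K) (ν T : ℝ) (x : H) (F : ℝ → K) : Prop :=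
  ∀ N : ℝ, ∃ t, 0 < t ∧ t ≤ T ∧ ∃ (u u1 : ℝ → H) (z z1 : ℝ → K), Str W m ν t F u u1 z z1 ∧
    u 0 = x ∧ N ≤ ‖z t‖

theorem unb_of_bad (Fr : Frame W m C)
    (hcomp : ∀ R : ℝ, TotallyBounded {v : H | ∃ z, (v, z) ∈ W ∧ ‖z‖ ≤ R}) (hν : 0 < ν)
    (hT : 0 < T) {d : Dat H K} (hd : Adm W m ν T d) (hb : ¬ Good W m ν T d) :
    Unb W m ν T d.x d.F := by
  intro N
  obtain ⟨τ, u, u1, z, z1, h1, h2, S, h3, h4⟩ := Pool.Agent.W52.TQ.proof_loc H K W m C ν T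
    d.F d.F1 d.x d.g d.z (max N (‖d.z‖ + 1)) Fr hcomp hν hT hd.force hd.mem hd.comp
    (lt_of_lt_of_le (lt_add_one _) (le_max_right _ _))
  rcases h4 with rfl | h4
  · exact absurd ⟨u, u1, z, z1, S, h3⟩ hb
  · exact ⟨τ, h1, h2, u, u1, z, z1, S, h3, (le_max_left _ _).trans h4⟩

theorem str_bdd {F : ℝ → K} {u u1 : ℝ → H} {z z1 : ℝ → K} (S : Str W m ν T F u u1 z z1) :
    ∃ M, ∀ t ∈ Icc 0 T, ‖z t‖ ≤ M :=
  (isCompact_Icc (a := (0 : ℝ)) (b := T)).exists_bound_of_continuousOn (prim_cont S.z1m S.pz)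

theorem bad_of_unb (Fr : Frame W m C) (hν : 0 < ν) {d : Dat H K} (hF : FH T d.F d.F1)
    (h : Unb W m ν T d.x d.F) : ¬ Good W m ν T d := by
  rintro ⟨u, u1, z, z1, S, h0⟩
  obtain ⟨M, hM⟩ := str_bdd S
  obtain ⟨t, h1, h2, v, v1, y, y1, S', h3, h4⟩ := h (M + 1)
  have h5 := str_unique Fr hν (of_fh hF) S h1 h2 S' (h0.trans h3.symm) t ⟨h1.le, le_rfl⟩
  have h6 := hM t ⟨h1.le, h2⟩
  rw [h5] at h6
  linarith

/-- There is a force on `[0,T]` for which the path from the state `(z0, q0)` blows up. -/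
def BF (J : K →L[ℝ] H) (P : K →L[ℝ] K) (B : K →L[ℝ] K →L[ℝ] K) (ν T : ℝ) (z0 q0 : K) : Prop :=
  ∃ F F1 : ℝ → K, PR T F F1 ∧ ∀ N : ℝ, ∃ t, 0 < t ∧ t ≤ T ∧ ∃ z z1 q q1 : ℝ → K,
    Path J P t z z1 q q1 ∧ z 0 = z0 ∧ q 0 = q0 ∧
    (∀ s ∈ Icc 0 t, P (F s) = P (frc ν B z q s)) ∧ N ≤ ‖z t‖

/-- extension by a constant -/
theorem PR.ext {F F1 : ℝ → K} (h : PR T F F1) (h0 : 0 ≤ T) {T' : ℝ} (hT : T ≤ T') :
    ∃ G G1 : ℝ → K, PR T' G G1 ∧ ∀ t ∈ Icc 0 T, G t = F t := by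
  have := PR.cat h0 (sub_nonneg.2 hT) h (PR.const (T' - T) (F T)) rfl
  rw [add_sub_cancel] at this
  exact ⟨_, _, this, fun t ht => cat_le ht.2 _ _⟩

theorem BF.mono {z0 q0 : K} (h : BF J P B ν T z0 q0) (h0 : 0 ≤ T) {T' : ℝ} (hT : T ≤ T') :
    BF J P B ν T' z0 q0 := by
  obtain ⟨F, F1, hF, h⟩ := h
  obtain ⟨G, G1, hG, hGF⟩ := hF.ext h0 hT
  refine ⟨G, G1, hG, fun N => ?_⟩
  obtain ⟨t, h1, h2, z, z1, q, q1, h3, h4, h5, h6, h7⟩ := h N
  exact ⟨t, h1, h2.trans hT, z, z1, q, q1, h3, h4, h5, fun s hs => by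
    rw [hGF s ⟨hs.1, hs.2.trans h2⟩]; exact h6 s hs, h7⟩

theorem BF.scale {z0 q0 : K} (h : BF J P B ν T z0 q0) {l : ℝ} (hl : 0 < l) :
    BF J P B (l * ν) (T / l) (l • z0) ((l ^ 2) • q0) := by
  obtain ⟨F, F1, hF, h⟩ := h
  refine ⟨_, _, (hF.scale hl).smul (l ^ 2), fun N => ?_⟩
  obtain ⟨t, h1, h2, z, z1, q, q1, h3, h4, h5, h6, h7⟩ := h (N / l)
  refine ⟨t / l, by positivity, by gcongr, _, _, _, _, h3.scale hl, ?_, ?_, ?_, ?_⟩
  · simp [h4]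
  · simp [h5]
  · intro s hs
    have hs' : l * s ∈ Icc 0 t := by
      refine ⟨mul_nonneg hl.le hs.1, ?_⟩
      have := hs.2
      rw [le_div_iff₀ hl] at this
      linarith
    have := h6 _ hs'
    rw [map_smul, this, ← map_smul]
    congr 1
    simp only [frc, map_smul, smul_apply]
    module
  · rw [mul_div_cancel₀ t hl.ne', norm_smul, Real.norm_of_nonneg hl.le]
    rw [div_le_iff₀ hl] at h7
    linarith

/-- A bad force, preceded by a path. -/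
theorem BF.prep (O : Op W m J P B) {z0 q0 : K} (hT : 0 ≤ T) {a : ℝ} (ha : 0 < a)
    (h : BF J P B ν T z0 q0) {y y1 r r1 : ℝ → K} (S : Path J P a y y1 r r1) (hy : y a = z0)
    (hr : r a = q0) : BF J P B ν (a + T) (y 0) (r 0) := by
  obtain ⟨F, F1, hF, h⟩ := h
  have hjoin : P (frc ν B y r a) = P (F 0) := by
    obtain ⟨t, h1, h2, z, z1, q, q1, h3, h4, h5, h6, h7⟩ := h 0
    rw [h6 0 ⟨le_rfl, h1.le⟩]
    simp only [frc, hy, hr, h4, h5]
  refine ⟨_, _, PR.cat ha.le hT (S.frc.map P) (hF.map P) hjoin, fun N => ?_⟩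
  obtain ⟨t, h1, h2, z, z1, q, q1, h3, h4, h5, h6, h7⟩ := h N
  refine ⟨a + t, by positivity, by gcongr, _, _, _, _,
    S.cat ha.le h1.le h3 (hy.trans h4.symm) (hr.trans h5.symm), cat_le ha.le _ _,
    cat_le ha.le _ _, ?_, ?_⟩
  · intro s hs
    rcases le_or_gt s a with hsa | hsa
    · simp only [frc, cat_le hsa, O.PP]
    · rw [cat_gt hsa, O.PP, h6 _ ⟨by linarith, by linarith [hs.2]⟩]
      simp only [frc, cat_gt hsa]
  · rw [cat_gt (by linarith), add_sub_cancel_left]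
    exact h7

/-- A time at which a path is in a good state. -/
theorem good_time {t0 t1 : ℝ} (h0 : 0 ≤ t0) (h01 : t0 < t1) (h1 : t1 ≤ T) {p : ℝ → Prop}
    (h : ∀ᵐ s ∂(volume.restrict (Ioc 0 T)), p s) : ∃ s, t0 < s ∧ s < t1 ∧ p s := by
  have hle : (volume.restrict (Ioo t0 t1) : Measure ℝ) ≤ volume.restrict (Ioc 0 T) :=
    Measure.restrict_mono (fun x (hx : x ∈ Ioo t0 t1) => (⟨h0.trans_lt hx.1, hx.2.le.trans h1⟩ :
      x ∈ Ioc 0 T)) le_rfl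
  have h2 : ∀ᵐ s ∂(volume.restrict (Ioo t0 t1)), p s := ae_mono hle h
  have hne : (volume.restrict (Ioo t0 t1) : Measure ℝ) ≠ 0 := by
    rw [Ne, Measure.restrict_eq_zero, Real.volume_Ioo]
    simp [h01]
  have : (ae (volume.restrict (Ioo t0 t1) : Measure ℝ)).NeBot := ae_neBot.2 hne
  obtain ⟨s, hs, hs'⟩ := (Filter.Eventually.and h2 (ae_restrict_mem measurableSet_Ioo)).exists
  exact ⟨s, hs'.1, hs'.2, hs⟩

/-- Near the first singular time. -/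
theorem bf_of_bad (O : Op W m J P B) (Fr : Frame W m C)
    (hcomp : ∀ R : ℝ, TotallyBounded {v : H | ∃ z, (v, z) ∈ W ∧ ‖z‖ ≤ R}) (hν : 0 < ν)
    (hT : 0 < T) {d : Dat H K} (hd : Adm W m ν T d) (hb : ¬ Good W m ν T d) {δ : ℝ}
    (hδ : 0 < δ) : ∃ a b : K, P a = a ∧ P b = b ∧ BF J P B ν δ a (RJ J b) := by
  have hU := unb_of_bad Fr hcomp hν hT hd hb
  have hF := of_fh hd.force
  set A : Set ℝ := {t | 0 < t ∧ t ≤ T ∧ ∃ (u u1 : ℝ → H) (z z1 : ℝ → K),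
    Str W m ν t d.F u u1 z z1 ∧ u 0 = d.x} with hA
  have hAb : BddAbove A := ⟨T, fun t ht => ht.2.1⟩
  have hAn : A.Nonempty := by
    obtain ⟨t, h1, h2, u, u1, z, z1, h3, h4, -⟩ := hU 0
    exact ⟨t, h1, h2, u, u1, z, z1, h3, h4⟩
  set τ := sSup A with hτ
  obtain ⟨s1, hs1A, hs1⟩ := exists_lt_of_lt_csSup hAn (sub_lt_self τ hδ)
  obtain ⟨h1, h2, u, u1, z, z1, S, h4⟩ := hs1A
  have hp := path_of_str O Fr h1 (hF.mono h2) S
  obtain ⟨s0, g1, g2, g3, g4⟩ := good_time (le_max_left 0 (τ - δ)) (max_lt h1 hs1) le_rfl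
    (hp.Pz1.and hp.eq)
  have hs0 : 0 < s0 := (le_max_left _ _).trans_lt g1
  have hs0δ : τ - δ < s0 := (le_max_right _ _).trans_lt g1
  refine ⟨z s0, z1 s0, hp.Pz s0 ⟨hs0.le, g2.le⟩, g3, ?_⟩
  obtain ⟨M, hM⟩ := str_bdd S
  -- the force
  obtain ⟨G, G1, hG, hGF⟩ := hF.ext hT.le (T' := T + δ) (by linarith)
  refine ⟨_, _, hG.shift hs0.le (T' := δ) (by linarith), fun N => ?_⟩
  obtain ⟨t, k1, k2, v, v1, y, y1, k3, k4, k5⟩ := hU (max N (M + 1))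
  have hts1 : s1 < t := by
    by_contra hcon
    push Not at hcon
    have e1 := str_unique Fr hν (hF.mono h2) S k1 hcon k3 (h4.trans k4.symm) t ⟨k1.le, le_rfl⟩
    have e2 := hM t ⟨k1.le, hcon⟩
    have e3 := (le_max_right N (M + 1)).trans k5
    rw [← e1] at e3
    linarith
  have htτ : t ≤ τ := le_csSup hAb ⟨k1, k2, v, v1, y, y1, k3, k4⟩
  have hpy := path_of_str O Fr k1 (hF.mono k2) k3
  have e1 : y s0 = z s0 :=
    str_unique Fr hν (hF.mono k2) k3 h1 hts1.le S (k4.trans h4.symm) s0 ⟨hs0.le, g2.le⟩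
  refine ⟨t - s0, by linarith, by linarith, _, _, _, _, hpy.shift hs0.le (T' := t - s0) (by linarith),
    ?_, ?_, ?_, ?_⟩
  · simp only [add_zero, e1]
  · simp only [add_zero, e1]
    exact g4.symm
  · intro s hs
    have e2 : G (s0 + s) = d.F (s0 + s) :=
      hGF _ ⟨by linarith [hs.1], by linarith [hs.2]⟩
    have e3 : P (y (s0 + s)) = y (s0 + s) := hpy.Pz _ ⟨by linarith [hs.1], by linarith [hs.2]⟩
    rw [e2]
    simp only [frc, map_add, map_sub, map_smul, O.PP, e3]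
    abel
  · rw [show s0 + (t - s0) = t by ring]
    exact (le_max_left _ _).trans k5

/-- If some data are bad, then for every viscosity, every time and all data at the initial time
there is a force which is bad. -/
theorem propagate (O : Op W m J P B) (Fr : Frame W m C)
    (hcomp : ∀ R : ℝ, TotallyBounded {v : H | ∃ z, (v, z) ∈ W ∧ ‖z‖ ≤ R}) {ν0 T0 : ℝ}
    (hν0 : 0 < ν0) (hT0 : 0 < T0) {d0 : Dat H K} (hd0 : Adm W m ν0 T0 d0)
    (hb : ¬ Good W m ν0 T0 d0) (hν : 0 < ν) (hT : 0 < T) {d : Dat H K} (hd : Adm W m ν T d) :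
    BF J P B ν T d.z (P (d.F 0) - ν • d.z + P (B d.z d.z)) := by
  -- a local solution with a constant force
  have hconst : FH T (fun _ : ℝ => d.F 0) (fun _ => 0) := (PR.const T (d.F 0)).fh
  obtain ⟨τ, u, u1, z, z1, h1, h2, S, h3, -⟩ := Pool.Agent.W52.TQ.proof_loc H K W m C ν T
    (fun _ => d.F 0) (fun _ => 0) d.x d.g d.z (‖d.z‖ + 1) Fr hcomp hν hT hconst hd.mem hd.comp
    (lt_add_one _)
  have hp := path_of_str O Fr h1 ((of_fh hconst).mono h2) S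
  have hz0 : z 0 = d.z := by
    have e1 := S.mem 0 ⟨le_rfl, h1.le⟩
    rw [h3] at e1
    exact grad_unique Fr e1 hd.mem
  obtain ⟨s, g1, g2, g3, g4⟩ := good_time (t0 := 0) (t1 := min τ (T / 4)) le_rfl
    (lt_min h1 (by linarith)) (min_le_left _ _) (hp.Pz1.and hp.eq)
  have hsτ : s < τ := g2.trans_le (min_le_left _ _)
  have hsT : s < T / 4 := g2.trans_le (min_le_right _ _)
  -- the bad state
  set l : ℝ := ν / ν0 with hl
  have hl0 : 0 < l := by positivity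
  obtain ⟨a, b, ha, hb', hBF⟩ := bf_of_bad O Fr hcomp hν0 hT0 hd0 hb (δ := T / 4 * l)
    (by positivity)
  have hBF2 := hBF.scale hl0
  rw [show l * ν0 = ν by rw [hl]; field_simp, mul_div_cancel_right₀ _ hl0.ne'] at hBF2
  obtain ⟨y, y1, r, r1, hy, hy0, hr0, hyh, hrh⟩ := hermite (J := J) (P := P) (h := T / 4)
    (by positivity) (hp.Pz s ⟨g1.le, hsτ.le⟩) g3 (b0 := l • a) (b1 := (l ^ 2) • b)
    (by rw [map_smul, ha]) (by rw [map_smul, hb'])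
  have hBF3 := hBF2.prep O (by positivity) (by positivity : (0 : ℝ) < T / 4) hy hyh
    (by rw [hrh, map_smul])
  have hBF4 := hBF3.prep O (by positivity) g1 (hp.mono hsτ.le) hy0.symm (by
    rw [hr0]; exact g4.symm)
  have hBF5 := hBF4.mono (by positivity) (T' := T) (by linarith)
  simp only [hz0] at hBF5
  exact hBF5

end Pool.Agent.H303.AP
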