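import Pool.Agent.H303.AP.Main
import Pool.Graph.R_pool_sql_team_seeded_64922ed1.X187.NSC.PubData

set_option autoImplicit false
set_option linter.unusedSectionVars false

open MeasureTheory Set Filter Topology
open scoped InnerProductSpace ContDiff

namespace Pool.Agent.H303.AP

open H772R2.NS

theorem quadr {Ω : Set E3} (hΩ : MeasurableSet Ω) : Quadr (graphW Ω) (tensL (Ω := Ω)) := by
  have key : ∀ {p : L2V Ω × L2M Ω}, p ∈ graphW Ω →
      (tensL p.1 : E3 → M3) =ᵐ[volume.restrict Ω] fun x => tens (p.1 x) := fun hp => tensL_coe hΩ hp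
  refine ⟨?_, ?_, ?_⟩
  · intro p hp q hq r hr
    have h1 := key (add_mem (add_mem hp hq) hr)
    have h2 := key (add_mem hp hq)
    have h3 := key (add_mem hp hr)
    have h4 := key (add_mem hq hr)
    simp only [Prod.fst_add] at h1 h2 h3 h4
    apply Lp.ext
    filter_upwards [h1, h2, h3, h4, key hp, key hq, key hr,
      Lp.coeFn_add (tensL (p.1 + q.1 + r.1) + tensL p.1 + tensL q.1) (tensL r.1),
      Lp.coeFn_add (tensL (p.1 + q.1 + r.1) + tensL p.1) (tensL q.1),
      Lp.coeFn_add (tensL (p.1 + q.1 + r.1)) (tensL p.1),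
      Lp.coeFn_add (tensL (p.1 + q.1) + tensL (p.1 + r.1)) (tensL (q.1 + r.1)),
      Lp.coeFn_add (tensL (p.1 + q.1)) (tensL (p.1 + r.1)),
      Lp.coeFn_add (p.1 + q.1) r.1, Lp.coeFn_add p.1 q.1, Lp.coeFn_add p.1 r.1,
      Lp.coeFn_add q.1 r.1] with x e1 e2 e3 e4 e5 e6 e7 f1 f2 f3 f4 f5 g1 g2 g3 g4
    rw [f1, Pi.add_apply, f2, Pi.add_apply, f3, Pi.add_apply, f4, Pi.add_apply, f5, Pi.add_apply,
      e1, e2, e3, e4, e5, e6, e7, g1, Pi.add_apply, g2, g3, g4]
    simp only [Pi.add_apply]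
    ext ij
    simp only [tens, PiLp.add_apply]
    ring
  · intro a p hp q hq
    have h1 := key (add_mem ((graphW Ω).smul_mem a hp) hq)
    have h2 := key ((graphW Ω).smul_mem a hp)
    have h3 := key (add_mem hp hq)
    simp only [Prod.fst_add, Prod.smul_fst] at h1 h2 h3
    apply Lp.ext
    filter_upwards [h1, h2, h3, key hp, key hq,
      Lp.coeFn_sub (tensL (a • p.1 + q.1) - tensL (a • p.1)) (tensL q.1),
      Lp.coeFn_sub (tensL (a • p.1 + q.1)) (tensL (a • p.1)),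
      Lp.coeFn_smul a (tensL (p.1 + q.1) - tensL p.1 - tensL q.1),
      Lp.coeFn_sub (tensL (p.1 + q.1) - tensL p.1) (tensL q.1),
      Lp.coeFn_sub (tensL (p.1 + q.1)) (tensL p.1),
      Lp.coeFn_add (a • p.1) q.1, Lp.coeFn_smul a p.1, Lp.coeFn_add p.1 q.1]
      with x e1 e2 e3 e4 e5 f1 f2 f3 f4 f5 g1 g2 g3
    rw [f1, Pi.sub_apply, f2, Pi.sub_apply, f3, Pi.smul_apply, f4, Pi.sub_apply, f5, Pi.sub_apply,
      e1, e2, e3, e4, e5, g1, Pi.add_apply, g2, g3]
    simp only [Pi.add_apply, Pi.smul_apply]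
    ext ij
    simp only [tens, PiLp.add_apply, PiLp.sub_apply, PiLp.smul_apply, smul_eq_mul]
    ring
  · intro a p hp
    have h1 := key ((graphW Ω).smul_mem a hp)
    simp only [Prod.smul_fst] at h1
    apply Lp.ext
    filter_upwards [h1, key hp, Lp.coeFn_smul (a ^ 2) (tensL p.1), Lp.coeFn_smul a p.1]
      with x e1 e2 f1 g1
    rw [e1, f1, Pi.smul_apply, e2, g1, Pi.smul_apply]
    ext ij
    simp only [tens, PiLp.smul_apply, smul_eq_mul]
    ring

end Pool.Agent.H303.AP
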