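import Pool.Agent.H303.AP.Approx2

set_option autoImplicit false
set_option linter.unusedSectionVars false

open MeasureTheory Set Filter Topology
open scoped InnerProductSpace ContDiff

namespace Pool.Agent.H303.AP

/-- Smooth functions which vanish in a neighbourhood of `(-∞,0]`. -/
structure IsRamp (a : ℝ → ℝ) : Prop where
  smooth : ContDiff ℝ ∞ a
  supp : tsupport a ⊆ Ioi 0

theorem deriv_prim {a : ℝ → ℝ} (ha : Continuous a) :
    deriv (fun t => ∫ s in (0 : ℝ)..t, a s) = a := by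
  funext t
  exact (intervalIntegral.integral_hasDerivAt_right (ha.intervalIntegrable _ _)
    (ha.stronglyMeasurableAtFilter _ _) ha.continuousAt).deriv

theorem smooth_prim {a : ℝ → ℝ} (ha : ContDiff ℝ ∞ a) :
    ContDiff ℝ ∞ (fun t => ∫ s in (0 : ℝ)..t, a s) := by
  rw [contDiff_infty_iff_deriv]
  refine ⟨fun t => ?_, ?_⟩
  · exact (intervalIntegral.integral_hasDerivAt_right (ha.continuous.intervalIntegrable _ _)
      (ha.continuous.stronglyMeasurableAtFilter _ _) ha.continuous.continuousAt).differentiableAt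
  · rw [deriv_prim ha.continuous]
    exact ha

theorem zero_prim {a : ℝ → ℝ} {ε : ℝ} (hε : 0 ≤ ε) (h : ∀ t, t < ε → a t = 0) :
    ∀ t, t < ε → ∫ s in (0 : ℝ)..t, a s = 0 := by
  intro t ht
  have : ∫ s in (0 : ℝ)..t, a s = ∫ s in (0 : ℝ)..t, (0 : ℝ) := by
    refine intervalIntegral.integral_congr_ae ?_
    have h0 : ∀ᵐ x ∂(volume : Measure ℝ), x ≠ ε := by
      rw [ae_iff]; simp
    filter_upwards [h0] with x hx hx'
    refine h x (lt_of_le_of_ne ?_ hx)
    rcases le_total 0 t with h1 | h1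
    · rw [uIoc_of_le h1] at hx'; exact hx'.2.trans ht.le
    · rw [uIoc_of_ge h1] at hx'; exact hx'.2.trans hε
  rw [this]; simp

theorem supp_low {T : ℝ} {a : ℝ → ℝ} (ha : IsT T a) : ∃ ε : ℝ, 0 < ε ∧ ∀ t, t < ε → a t = 0 := by
  have hc : IsCompact (tsupport a) := ha.2.1
  rcases (tsupport a).eq_empty_or_nonempty with h | h
  · refine ⟨1, one_pos, fun t _ => ?_⟩
    by_contra hne
    have : t ∈ tsupport a := subset_tsupport a hne
    rw [h] at this
    exact this
  · obtain ⟨x, hx, hmin⟩ := hc.exists_isLeast h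
    refine ⟨x, (ha.2.2 hx).1, fun t ht => ?_⟩
    by_contra hne
    exact absurd (hmin (subset_tsupport a hne)) (not_le.2 ht)

theorem isRamp_of {a : ℝ → ℝ} (h : ContDiff ℝ ∞ a) {ε : ℝ} (hε : 0 < ε)
    (h0 : ∀ t, t < ε → a t = 0) : IsRamp a := by
  refine ⟨h, ?_⟩
  have h1 : tsupport a ⊆ Ici ε := by
    refine closure_minimal (fun t ht => ?_) isClosed_Ici
    by_contra hlt
    exact ht (h0 t (not_le.1 hlt))
  exact fun t ht => lt_of_lt_of_le hε (h1 ht)

theorem ramp {T : ℝ} {a : ℝ → ℝ} (ha : IsT T a) :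
    ∃ A : ℝ → ℝ, IsRamp A ∧ deriv (deriv A) = a ∧ (∀ t, deriv A t = ∫ s in (0 : ℝ)..t, a s) ∧
      ∀ t, A t = ∫ s in (0 : ℝ)..t, deriv A s := by
  obtain ⟨ε, hε, h0⟩ := supp_low ha
  have s1 := smooth_prim ha.1
  have s2 := smooth_prim s1
  refine ⟨fun t => ∫ s in (0 : ℝ)..t, ∫ r in (0 : ℝ)..s, a r,
    isRamp_of s2 hε (zero_prim hε.le (zero_prim hε.le h0)), ?_, ?_, ?_⟩
  · rw [deriv_prim s1.continuous, deriv_prim ha.1.continuous]
  · intro t
    rw [deriv_prim s1.continuous]
  · intro t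
    rw [deriv_prim s1.continuous]

theorem IsRamp.zero {a : ℝ → ℝ} (h : IsRamp a) {t : ℝ} (ht : t ≤ 0) : a t = 0 := by
  by_contra hne
  exact absurd (h.supp (subset_tsupport a hne)) (not_lt.2 ht)

theorem IsRamp.d {a : ℝ → ℝ} (h : IsRamp a) : IsRamp (deriv a) := by
  refine ⟨(contDiff_infty_iff_deriv.1 h.smooth).2, ?_⟩
  refine subset_trans ?_ h.supp
  exact closure_minimal (support_deriv_subset) isClosed_closure

theorem IsRamp.hasDeriv {a : ℝ → ℝ} (h : IsRamp a) (t : ℝ) : HasDerivAt a (deriv a t) t :=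
  ((contDiff_infty_iff_deriv.1 h.smooth).1 t).hasDerivAt

section

variable {K : Type} [NormedAddCommGroup K] [InnerProductSpace ℝ K] [CompleteSpace K]

/-- the double primitive of a finite sum -/
theorem FS.ramps {D : Submodule ℝ K} {T : ℝ} {y : ℝ → K} (hy : FS D T y) :
    ∃ (ι : Type) (_ : Fintype ι) (a : ι → ℝ → ℝ) (p : ι → K), (∀ i, IsRamp (a i)) ∧
      (∀ i, p i ∈ D) ∧ (y = fun t => ∑ i, deriv (deriv (a i)) t • p i) ∧
      (prm y = fun t => ∑ i, deriv (a i) t • p i) ∧
      (prm (prm y) = fun t => ∑ i, a i t • p i) := by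
  obtain ⟨ι, _, a, p, h1, h2, rfl⟩ := hy
  choose A hA1 hA2 hA3 hA4 using fun i => ramp (h1 i)
  have e1 : prm (fun t => ∑ i, a i t • p i) = fun t => ∑ i, deriv (A i) t • p i := by
    funext t
    rw [prm, intervalIntegral.integral_finsetSum]
    · refine Finset.sum_congr rfl fun i _ => ?_
      rw [intervalIntegral.integral_smul_const, hA3]
    · intro i _
      exact (((h1 i).1.continuous).smul continuous_const).intervalIntegrable _ _
  refine ⟨ι, inferInstance, A, p, hA1, h2, ?_, e1, ?_⟩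
  · funext t
    exact Finset.sum_congr rfl fun i _ => by rw [hA2]
  · rw [e1]
    funext t
    rw [prm, intervalIntegral.integral_finsetSum]
    · refine Finset.sum_congr rfl fun i _ => ?_
      rw [intervalIntegral.integral_smul_const, ← hA4]
    · intro i _
      exact (((hA1 i).d.smooth.continuous).smul continuous_const).intervalIntegrable _ _

end

end Pool.Agent.H303.AP
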