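import Pool.Agent.H303.AP.Stek

set_option autoImplicit false
set_option linter.unusedSectionVars false

open MeasureTheory Set Filter Topology
open scoped InnerProductSpace

namespace Pool.Agent.H303.AP

open H772R2.NSR (Frame prim_cont grad_unique)
open Pool.Agent.W795.TQ
open Pool.Agent.X187.NSC (int_sub_le prim_half)

variable {H K : Type} [NormedAddCommGroup H] [InnerProductSpace ℝ H] [CompleteSpace H]
  [NormedAddCommGroup K] [InnerProductSpace ℝ K] [CompleteSpace K]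
  {W : Submodule ℝ (H × K)} {m : H → K} {C ν T L δ : ℝ} {J : K →L[ℝ] H} {P : K →L[ℝ] K}
  {B : K →L[ℝ] K →L[ℝ] K}

theorem dq_smul_map {f : ℝ → K} (A : K →L[ℝ] K) (t : ℝ) :
    dq δ (fun s => A (f s)) t = A (dq δ f t) := by
  simp only [dq, map_smul, map_sub]

/-- The force of the averaged path. -/
theorem smooth_frc {Z Z1 Q Q1 F : ℝ → K} (hδ : 0 < δ) (S : Path J P L Z Z1 Q Q1)
    (hF : ∀ t ∈ Icc 0 L, P (F t) = P (frc ν B Z Q t)) {M : ℝ}
    (hM : ∫ s in (0 : ℝ)..L, ‖Z1 s‖ ^ 2 ≤ M) :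
    ∀ᵐ t ∂(volume.restrict (Ioc 0 (L - δ))),
      ‖P (frc1 ν B (stek δ Z) (dq δ Z) (fun t => RJ J (dq δ Z1 t)) t) - dq δ (fun s => P (F s)) t‖
        ≤ ‖P‖ * (2 * ‖B‖ * √(M * δ)) * ‖dq δ Z t‖ := by
  filter_upwards [ae_shift hδ.le (T' := L - δ) (by linarith) S.eq,
    ae_mono (Measure.restrict_mono (Ioc_subset_Ioc_right (by linarith)) le_rfl) S.eq,
    ae_restrict_mem measurableSet_Ioc] with t h1 h2 h3
  have htI : t ∈ Icc 0 (L - δ) := Ioc_subset_Icc_self h3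
  have e1 : dq δ (fun s => P (F s)) t = P (dq δ (frc ν B Z Q) t) := by
    simp only [dq]
    rw [hF t ⟨htI.1, by linarith [htI.2]⟩, hF (δ + t) ⟨by linarith [htI.1], by linarith [htI.2]⟩,
      map_smul, map_sub]
  set a := Z (δ + t) with ha
  set b := Z t with hb
  set w := stek δ Z t with hw
  set w1 := dq δ Z t with hw1
  have hw1' : w1 = δ⁻¹ • (a - b) := rfl
  have e2 : frc1 ν B (stek δ Z) (dq δ Z) (fun t => RJ J (dq δ Z1 t)) t - dq δ (frc ν B Z Q) t
      = B w1 (a - w) + B (b - w) w1 := by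
    have e3 : RJ J (dq δ Z1 t) = δ⁻¹ • (Q (δ + t) - Q t) := by
      simp only [dq]
      rw [map_smul, map_sub, h1, h2]
    have e4 : dq δ (frc ν B Z Q) t = δ⁻¹ • (Q (δ + t) - Q t) + ν • w1
        - δ⁻¹ • (B a a - B b b) := by
      simp only [dq, frc, hw1', ← ha, ← hb]
      module
    have e5 : B a a - B b b = B (a - b) a + B b (a - b) := by
      simp only [map_sub, sub_apply]
      abel
    have e6 : δ⁻¹ • (B (a - b) a + B b (a - b)) = B w1 a + B b w1 := by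
      rw [hw1']
      simp only [map_smul, smul_apply, smul_add]
    simp only [frc1]
    rw [e3, e4, e5, e6, ← hw, ← hw1]
    simp only [map_sub, sub_apply]
    abel
  rw [e1, ← map_sub, e2]
  have n1 : ‖a - w‖ ≤ √(M * δ) := by
    rw [norm_sub_rev]
    exact stek_close S.pz hδ hM htI ⟨by linarith, le_rfl⟩
  have n2 : ‖b - w‖ ≤ √(M * δ) := by
    rw [norm_sub_rev]
    exact stek_close S.pz hδ hM htI ⟨le_rfl, by linarith⟩
  have n3 : ‖B w1 (a - w)‖ ≤ ‖B‖ * ‖w1‖ * √(M * δ) :=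
    (B.le_opNorm₂ _ _).trans (by gcongr)
  have n4 : ‖B (b - w) w1‖ ≤ ‖B‖ * √(M * δ) * ‖w1‖ :=
    (B.le_opNorm₂ _ _).trans (by gcongr)
  calc ‖P (B w1 (a - w) + B (b - w) w1)‖ ≤ ‖P‖ * ‖B w1 (a - w) + B (b - w) w1‖ := P.le_opNorm _
    _ ≤ ‖P‖ * (‖B‖ * ‖w1‖ * √(M * δ) + ‖B‖ * √(M * δ) * ‖w1‖) := by
      gcongr
      exact (norm_add_le _ _).trans (add_le_add n3 n4)
    _ = _ := by ring

/-- The averaged path is of class `H²`. -/
theorem smooth_PR {Z Z1 Q Q1 : ℝ → K} (hδ : 0 < δ) (S : Path J P L Z Z1 Q Q1) :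
    PR (L - δ) (stek δ Z) (dq δ Z) ∧ PR (L - δ) (dq δ Z) (dq δ Z1) ∧
      (∀ t ∈ Icc 0 (L - δ), P (stek δ Z t) = stek δ Z t) ∧
      ∀ᵐ t ∂(volume.restrict (Ioc 0 (L - δ))), P (dq δ Z1 t) = dq δ Z1 t := by
  refine ⟨S.pz.stek hδ.le, S.pz.dq hδ.le, ?_, ?_⟩
  · intro t ht
    have hlt : t ≤ δ + t := by linarith
    have hii : IntervalIntegrable Z volume t (δ + t) := by
      refine ContinuousOn.intervalIntegrable ?_
      rw [uIcc_of_le hlt]
      exact S.pz.cont.mono (Icc_subset_Icc ht.1 (by linarith [ht.2]))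
    rw [stek_eq S.pz hδ ht, map_smul, ← P.intervalIntegral_comp_comm hii]
    congr 1
    refine intervalIntegral.integral_congr fun s hs => ?_
    rw [uIcc_of_le hlt] at hs
    exact S.Pz s ⟨ht.1.trans hs.1, hs.2.trans (by linarith [ht.2])⟩
  · filter_upwards [ae_shift hδ.le (T' := L - δ) (by linarith) S.Pz1,
      ae_mono (Measure.restrict_mono (Ioc_subset_Ioc_right (by linarith)) le_rfl) S.Pz1]
      with t h1 h2
    simp only [dq]
    rw [map_smul, map_sub, h1, h2]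

end Pool.Agent.H303.AP
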