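import Pool.Agent.H303.AP.Prop

set_option autoImplicit false
set_option linter.unusedSectionVars false

open MeasureTheory Set Filter Topology
open scoped InnerProductSpace

namespace Pool.Agent.H303.AP

open H772R2.NSR (Frame prim_cont grad_unique)
open Pool.Agent.W795.TQ
open Pool.Agent.X187.NSC (int_sub_le prim_half)

section avg

variable {X : Type} [NormedAddCommGroup X] [InnerProductSpace ℝ X] [CompleteSpace X]
  {L δ : ℝ} {f f1 : ℝ → X}

/-- difference quotient -/
noncomputable def dq (δ : ℝ) (f : ℝ → X) : ℝ → X := fun t => δ⁻¹ • (f (δ + t) - f t)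

/-- Steklov average -/
noncomputable def stek (δ : ℝ) (f : ℝ → X) : ℝ → X :=
  dq δ fun t => ∫ s in (0 : ℝ)..t, f s

theorem PR.dq (h : PR L f f1) (hδ : 0 ≤ δ) : PR (L - δ) (dq δ f) (dq δ f1) :=
  ((h.shift hδ (T' := L - δ) (by linarith)).sub (h.mono (by linarith))).smul _

theorem PR.integral (hf : ContinuousOn f (Icc 0 L)) : PR L (fun t => ∫ s in (0 : ℝ)..t, f s) f := by
  have hfin := fin_T L
  have hm : MemLp f 2 (volume.restrict (Ioc 0 L)) := by
    obtain ⟨M, hM⟩ := (isCompact_Icc (a := (0 : ℝ)) (b := L)).exists_bound_of_continuousOn hf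
    refine MemLp.of_bound ((hf.mono Ioc_subset_Icc_self).aestronglyMeasurable measurableSet_Ioc) M ?_
    filter_upwards [ae_restrict_mem measurableSet_Ioc] with t ht
    exact hM t (Ioc_subset_Icc_self ht)
  refine ⟨hm, fun a b ha hab hb => ?_⟩
  have hii : ∀ s t, 0 ≤ s → s ≤ t → t ≤ L → IntervalIntegrable f volume s t := by
    intro s t hs hst ht
    refine ContinuousOn.intervalIntegrable ?_
    rw [uIcc_of_le hst]
    exact hf.mono (Icc_subset_Icc hs ht)
  exact intervalIntegral.integral_interval_sub_left (hii 0 b le_rfl (ha.trans hab) hb)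
    (hii 0 a le_rfl ha (hab.trans hb))

theorem PR.stek (h : PR L f f1) (hδ : 0 ≤ δ) : PR (L - δ) (stek δ f) (AP.dq δ f) :=
  (PR.integral h.cont).dq hδ

theorem stek_eq (h : PR L f f1) (hδ : 0 < δ) {t : ℝ} (ht : t ∈ Icc 0 (L - δ)) :
    stek δ f t = δ⁻¹ • ∫ s in t..(δ + t), f s := by
  have h1 := (PR.integral h.cont).prim t (δ + t) ht.1 (by linarith) (by linarith [ht.2])
  rw [← h1]
  rfl

/-- The average is close to the function. -/
theorem stek_close (h : PR L f f1) (hδ : 0 < δ) {M : ℝ}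
    (hM : ∫ s in (0 : ℝ)..L, ‖f1 s‖ ^ 2 ≤ M) {t r : ℝ} (ht : t ∈ Icc 0 (L - δ))
    (hr : r ∈ Icc t (δ + t)) : ‖stek δ f t - f r‖ ≤ √(M * δ) := by
  have hM0 : 0 ≤ M := by
    have hL : 0 ≤ L := by linarith [ht.1, ht.2]
    exact (intervalIntegral.integral_nonneg hL fun s _ => by positivity).trans hM
  have hpt : ∀ s ∈ Icc t (δ + t), ‖f s - f r‖ ≤ √(M * δ) := by
    intro s hs
    refine Real.le_sqrt_of_sq_le ?_
    have key : ∀ x ∈ Icc t (δ + t), ∀ y ∈ Icc t (δ + t), x ≤ y → ‖f y - f x‖ ^ 2 ≤ M * δ := by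
      intro x hx y hy hxy
      have e1 : y - x ≤ δ := by linarith [hx.1, hy.2]
      refine (prim_half h.memLp h.prim (ht.1.trans hx.1) hxy (hy.2.trans (by linarith [ht.2]))
        (int_sub_le h.sq (fun t => by positivity) hM (ht.1.trans hx.1) hxy
          (hy.2.trans (by linarith [ht.2])))).trans ?_
      gcongr
    rcases le_total r s with h1 | h1
    · exact key r hr s hs h1
    · rw [norm_sub_rev]; exact key s hs r hr h1
  have hlt : t ≤ δ + t := by linarith
  have hcont : ContinuousOn f (Icc t (δ + t)) :=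
    h.cont.mono (Icc_subset_Icc ht.1 (by linarith [ht.2]))
  have hii : IntervalIntegrable f volume t (δ + t) := by
    refine ContinuousOn.intervalIntegrable ?_
    rwa [uIcc_of_le hlt]
  have e1 : stek δ f t - f r = δ⁻¹ • ∫ s in t..(δ + t), (f s - f r) := by
    rw [intervalIntegral.integral_sub hii intervalIntegrable_const, intervalIntegral.integral_const,
      stek_eq h hδ ht, smul_sub, add_sub_cancel_right, smul_smul, inv_mul_cancel₀ hδ.ne', one_smul]
  have e2 : ‖∫ s in t..(δ + t), (f s - f r)‖ ≤ √(M * δ) * |δ + t - t| := by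
    refine intervalIntegral.norm_integral_le_of_norm_le_const fun s hs => ?_
    rw [uIoc_of_le hlt] at hs
    exact hpt s (Ioc_subset_Icc_self hs)
  rw [e1, norm_smul, norm_inv, Real.norm_of_nonneg hδ.le]
  rw [add_sub_cancel_right, abs_of_pos hδ] at e2
  rw [inv_mul_le_iff₀ hδ]
  linarith

/-- The difference quotient is bounded in `L²` by the derivative. -/
theorem dq_le (h : PR L f f1) (hδ : 0 < δ) (hδL : δ ≤ L) :
    ∫ t in (0 : ℝ)..(L - δ), ‖dq δ f t‖ ^ 2 ≤ ∫ s in (0 : ℝ)..L, ‖f1 s‖ ^ 2 := by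
  have hL : 0 ≤ L := hδ.le.trans hδL
  set G : ℝ → ℝ := fun t => ∫ s in (0 : ℝ)..t, ‖f1 s‖ ^ 2 with hG
  have hii : ∀ s t, 0 ≤ s → s ≤ t → t ≤ L →
      IntervalIntegrable (fun s => ‖f1 s‖ ^ 2) volume s t := fun s t hs hst ht => h.iisq hs hst ht
  have hGd : ∀ s t, 0 ≤ s → s ≤ t → t ≤ L → G t - G s = ∫ r in s..t, ‖f1 r‖ ^ 2 := by
    intro s t hs hst ht
    exact intervalIntegral.integral_interval_sub_left (hii 0 t le_rfl (hs.trans hst) ht)
      (hii 0 s le_rfl hs (hst.trans ht))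
  have hGc : ContinuousOn G (Icc 0 L) := by
    have := intervalIntegral.continuousOn_primitive_interval' (hii 0 L le_rfl hL le_rfl)
      (left_mem_uIcc)
    rwa [uIcc_of_le hL] at this
  have hGm : ∀ s t, 0 ≤ s → s ≤ t → t ≤ L → G s ≤ G t := by
    intro s t hs hst ht
    have := hGd s t hs hst ht
    have h2 : 0 ≤ ∫ r in s..t, ‖f1 r‖ ^ 2 := intervalIntegral.integral_nonneg hst fun _ _ => by
      positivity
    linarith
  have hGi : ∀ s t, 0 ≤ s → s ≤ t → t ≤ L → IntervalIntegrable G volume s t := by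
    intro s t hs hst ht
    refine ContinuousOn.intervalIntegrable ?_
    rw [uIcc_of_le hst]
    exact hGc.mono (Icc_subset_Icc hs ht)
  -- pointwise bound
  have hpt : ∀ t ∈ Icc 0 (L - δ), ‖dq δ f t‖ ^ 2 ≤ δ⁻¹ * (G (δ + t) - G t) := by
    intro t ht
    have e1 := prim_half h.memLp h.prim ht.1 (by linarith : t ≤ δ + t) (by linarith [ht.2])
      (le_of_eq (hGd t (δ + t) ht.1 (by linarith) (by linarith [ht.2])).symm)
    rw [dq, norm_smul, mul_pow, norm_inv, Real.norm_of_nonneg hδ.le]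
    have e2 : δ + t - t = δ := by ring
    rw [e2] at e1
    calc δ⁻¹ ^ 2 * ‖f (δ + t) - f t‖ ^ 2 ≤ δ⁻¹ ^ 2 * ((G (δ + t) - G t) * δ) := by gcongr
      _ = δ⁻¹ * (G (δ + t) - G t) := by field_simp
  have hLδ : 0 ≤ L - δ := by linarith
  have hshift : IntervalIntegrable (fun t => G (δ + t)) volume 0 (L - δ) := by
    refine ContinuousOn.intervalIntegrable ?_
    rw [uIcc_of_le hLδ]
    refine hGc.comp (by fun_prop) fun t ht => ⟨by linarith [ht.1], by linarith [ht.2]⟩
  have h1 : ∫ t in (0 : ℝ)..(L - δ), ‖dq δ f t‖ ^ 2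
      ≤ ∫ t in (0 : ℝ)..(L - δ), δ⁻¹ * (G (δ + t) - G t) := by
    refine intervalIntegral.integral_mono_on hLδ ?_ ?_ hpt
    · refine ContinuousOn.intervalIntegrable ?_
      rw [uIcc_of_le hLδ]
      exact (((h.dq hδ.le).cont).norm).pow 2
    · exact (hshift.sub (hGi 0 (L - δ) le_rfl hLδ (by linarith))).const_mul _
  refine h1.trans ?_
  rw [intervalIntegral.integral_const_mul, intervalIntegral.integral_sub hshift
    (hGi 0 (L - δ) le_rfl hLδ (by linarith))]
  have e3 : ∫ t in (0 : ℝ)..(L - δ), G (δ + t) = ∫ t in δ..L, G t := by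
    rw [intervalIntegral.integral_comp_add_left (fun t => G t) δ]
    congr 1 <;> ring
  have e4 : ∫ t in δ..L, G t - 0 = (∫ t in (0 : ℝ)..L, G t) - ∫ t in (0 : ℝ)..δ, G t := by
    simp only [sub_zero]
    exact (intervalIntegral.integral_interval_sub_left (hGi 0 L le_rfl hL le_rfl)
      (hGi 0 δ le_rfl hδ.le hδL)).symm
  simp only [sub_zero] at e4
  have e5 : (∫ t in (0 : ℝ)..L, G t) - ∫ t in (0 : ℝ)..(L - δ), G t = ∫ t in (L - δ)..L, G t :=
    intervalIntegral.integral_interval_sub_left (hGi 0 L le_rfl hL le_rfl)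
      (hGi 0 (L - δ) le_rfl hLδ (by linarith))
  have e6 : 0 ≤ ∫ t in (0 : ℝ)..δ, G t := intervalIntegral.integral_nonneg hδ.le fun t ht => by
    have := hGm 0 t le_rfl ht.1 (ht.2.trans hδL)
    have h0 : G 0 = 0 := by simp [hG]
    linarith
  have e7 : ∫ t in (L - δ)..L, G t ≤ ∫ t in (L - δ)..L, G L := by
    refine intervalIntegral.integral_mono_on (by linarith)
      (hGi (L - δ) L hLδ (by linarith) le_rfl) intervalIntegrable_const fun t ht => ?_
    exact hGm t L (hLδ.trans ht.1) ht.2 le_rfl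
  rw [intervalIntegral.integral_const, smul_eq_mul, show L - (L - δ) = δ by ring] at e7
  rw [e3, e4, inv_mul_le_iff₀ hδ]
  show _ ≤ δ * G L
  linarith

end avg

end Pool.Agent.H303.AP
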